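import Pool.Agent.Lib.MP_6547d0_mp.G.Ground

/-! A large slope bound is not attained next to an endpoint when the gap is small. -/

set_option autoImplicit false

namespace Pool.Agent.Lib.MP_6547d0_mp.G

open Set Filter Topology Real MeasureTheory intervalIntegral

theorem hd_par (z l x : ℝ) : HasDerivAt (fun x => (x - z) * (l - (x - z))) (l - 2 * (x - z)) x ∧
    HasDerivAt (fun x => l - 2 * (x - z)) (-2) x :=
  ⟨(((hasDerivAt_id' x).sub_const z).fun_mul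
      (((hasDerivAt_id' x).sub_const z).const_sub l)).congr_deriv (by ring),
    ((((hasDerivAt_id' x).sub_const z).const_mul 2).const_sub l).congr_deriv (by ring)⟩

theorem lemG {l Γ : ℝ} (hl : 0 < l) (hΓ : 0 < Γ) : ∃ K : ℝ, 0 ≤ K ∧
    ∀ (V u u' y y' : ℝ → ℝ) (a b z e : ℝ), z < e → e - z ≤ l → ConvexOn ℝ (Icc z e) V →
      Sol (fun x => V x - a) u u' z e → (∀ x ∈ Ico z e, 0 < u x) → u e = 0 → u' z ≤ 0 →
      (∀ x ∈ Icc z e, 0 ≤ u' x ^ 2 + (a - V x) * u x ^ 2) → Sol (fun x => V x - b) y y' z e →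
      y z = 0 → y e = 0 → (∃ x ∈ Icc z e, y x ≠ 0) → b - a < Γ → a ≤ V z + K := by
  obtain ⟨ρ, hρ, eρ⟩ : ∃ ρ, 0 < ρ ∧ 3 * l * Γ * ρ = 2 :=
    ⟨2 / (3 * l * Γ), by positivity, by field_simp⟩
  obtain ⟨w, hw, ew⟩ : ∃ w, 0 < w ∧ 2 * w = 3 * Γ * l := ⟨3 * Γ * l / 2, by positivity, by ring⟩
  obtain ⟨κ, hκ, eκ⟩ : ∃ κ, 0 < κ ∧ κ * ρ = 2 * w := ⟨2 * w / ρ, by positivity, by field_simp⟩
  refine ⟨w ^ 2 + 2 * κ, by positivity,
    fun V u u' y y' a b z e hze hel hV hu hp ue uz he hy yz ye hy0 hγ => ?_⟩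
  have hW : ∀ s t, z ≤ s → s ≤ t → t < e → -u' s / u s ≤ -u' t / u t := fun s t h1 h2 h3 => by
    simpa using wmono (κ := 0) h2 (hu.mono h1 h3.le)
      (fun x hx => hp x ⟨h1.trans hx.1, hx.2.trans_lt h3⟩)
      fun x hx => by linarith [he x ⟨h1.trans hx.1, hx.2.trans h3.le⟩]
  have W0 : 0 ≤ -u' z / u z := div_nonneg (neg_nonneg.2 uz) (hp z ⟨le_rfl, hze⟩).le
  by_contra hn
  push Not at hn
  by_cases hA : z + ρ < e ∧ -u' (z + ρ) / u (z + ρ) < w
  · have m : z + ρ ∈ Ico z e := ⟨by linarith, hA.1⟩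
    have h1 : V (z + ρ) ≤ a + w ^ 2 := by
      have g1 := W0.trans (hW z _ le_rfl m.1 m.2)
      have g2 := pow_le_pow_left₀ g1 hA.2.le 2
      have g3 := pow_pos (hp _ m) 2
      rw [div_pow, div_le_iff₀ g3] at g2
      have g4 := he _ (Ico_subset_Icc_self m)
      exact le_of_mul_le_mul_right (by nlinarith) g3
    have h2 := wmono (κ := κ) (s := z) (t := z + ρ / 2) (by linarith) (hu.mono le_rfl (by linarith))
      (fun x hx => hp x ⟨hx.1, by linarith [hx.2]⟩) fun x hx => by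
        have t0 : 0 ≤ (x - z) / ρ := div_nonneg (sub_nonneg.2 hx.1) hρ.le
        have t1 : (x - z) / ρ ≤ 1 / 2 := by rw [div_le_iff₀ hρ]; linarith [hx.2]
        have g := hV.2 (⟨le_rfl, hze.le⟩ : z ∈ Icc z e) (Ico_subset_Icc_self m)
          (show 0 ≤ 1 - (x - z) / ρ by linarith) t0 (by ring)
        rw [show (1 - (x - z) / ρ) • z + ((x - z) / ρ) • (z + ρ) = x by
          simp only [smul_eq_mul]; field_simp; ring] at g
        simp only [smul_eq_mul] at g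
        have g1 : κ ≤ a - V x := by nlinarith
        nlinarith [mul_le_mul_of_nonneg_right g1 (sq_nonneg (u x)), sq_nonneg (u' x)]
    have h3 := hW (z + ρ / 2) (z + ρ) (by linarith) (by linarith) hA.1
    linarith [hA.2]
  refine sturm (φ := fun x => u x * ((x - z) * (3 * l - (x - z))))
    (φ' := fun x => u' x * ((x - z) * (3 * l - (x - z))) + u x * (3 * l - 2 * (x - z)))
    (φ'' := fun x => (V x - a) * u x * ((x - z) * (3 * l - (x - z)))
      + 2 * u' x * (3 * l - 2 * (x - z)) - 2 * u x) hy yz ye hy0 (fun x hx =>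
      ⟨(hu x hx).1.fun_mul (hd_par z _ x).1, (((hu x hx).2.fun_mul (hd_par z _ x).1).fun_add
        ((hu x hx).1.fun_mul (hd_par z _ x).2)).congr_deriv (by ring)⟩) (fun x hx => ?_)
    fun x hx => ?_
  · refine mul_nonneg ?_ (mul_nonneg (by linarith [hx.1]) (by linarith [hx.2]))
    rcases hx.2.eq_or_lt with h | h
    · rw [h, ue]
    · exact (hp x ⟨hx.1, h⟩).le
  have ux := hp x (Ioo_subset_Ico_self hx)
  have s0 := sub_pos.2 hx.1
  have s1 : x - z ≤ l := by linarith [hx.2]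
  obtain ⟨W, eW⟩ : ∃ W, W = -u' x / u x := ⟨_, rfl⟩
  have e1 : u' x = -(W * u x) := by rw [eW]; field_simp
  have W1 : 0 ≤ W := eW ▸ W0.trans (hW z x le_rfl hx.1.le hx.2)
  have f0 : 0 < (x - z) * (3 * l - (x - z)) := mul_pos s0 (by linarith)
  have f1 : Γ * ((x - z) * (3 * l - (x - z))) ≤ 3 * l * Γ * (x - z) := by nlinarith [mul_pos hΓ s0]
  have key : Γ * ((x - z) * (3 * l - (x - z))) ≤ 2 * W * (3 * l - 2 * (x - z)) + 2 := by
    rcases le_total (x - z) ρ with h | h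
    · have := mul_le_mul_of_nonneg_left h (show 0 ≤ 3 * l * Γ by positivity)
      nlinarith [mul_nonneg W1 (show 0 ≤ 3 * l - 2 * (x - z) by linarith)]
    · have g1 : z + ρ < e := by linarith [hx.2]
      have g2 : w ≤ W := eW ▸ (not_lt.1 fun h' => hA ⟨g1, h'⟩).trans
        (hW _ x (by linarith) (by linarith) hx.2)
      have := mul_le_mul g2 (show l ≤ 3 * l - 2 * (x - z) by linarith) hl.le W1
      have g3 := mul_le_mul_of_nonneg_left s1 (show 0 ≤ 3 * l * Γ by positivity)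
      nlinarith
  rw [e1]
  nlinarith [mul_le_mul_of_nonneg_left key ux.le, mul_pos (mul_pos ux f0) (sub_pos.2 hγ)]

theorem lemA {V y y' : ℝ → ℝ} {l E M b z e : ℝ} (hE : 0 < E) (hM : 3 * l * E ^ 2 ≤ M)
    (hel : e - z ≤ l) (hV : ∀ x ∈ Icc z e, V z + M * (x - z) ≤ V x)
    (hy : Sol (fun x => V x - b) y y' z e) (yz : y z = 0) (ye : y e = 0)
    (hy0 : ∃ x ∈ Icc z e, y x ≠ 0) : V z + E ≤ b := by
  by_contra hn
  push Not at hn
  refine sturm (φ'' := fun _ => -2) hy yz ye hy0 (fun x _ => hd_par z (3 * l) x)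
    (fun x hx => mul_nonneg (by linarith [hx.1]) (by linarith [hx.1, hx.2])) fun x hx => ?_
  have s0 := sub_pos.2 hx.1
  have s1 : x - z ≤ l := by linarith [hx.2]
  have f0 : 0 < (x - z) * (3 * l - (x - z)) := mul_pos s0 (by linarith)
  have h1 := hV x (Ioo_subset_Icc_self hx)
  rcases le_total E (M * (x - z)) with h | h
  · nlinarith [mul_nonneg (show 0 ≤ V x - b by linarith) f0.le]
  · have h2 : 3 * l * E * (x - z) ≤ 1 := by
      have := mul_le_mul_of_nonneg_right hM s0.le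
      exact le_of_mul_le_mul_left (by nlinarith) hE
    have M0 : 0 ≤ M * (x - z) := mul_nonneg (le_trans (by nlinarith [sq_nonneg E]) hM) s0.le
    have h3 := mul_le_mul_of_nonneg_right (show -E ≤ V x - b by linarith) f0.le
    nlinarith [mul_pos hE (mul_pos s0 s0)]

theorem nozero {V u u' y y' D : ℝ → ℝ} {a b p L : ℝ} (hab : a < b)
    (hu : Sol (fun x => V x - a) u u' p L) (uL : u L = 0) (hp : ∀ x ∈ Ioo p L, 0 < u x)
    (hy : Sol (fun x => V x - b) y y' p L) (yL : y L = 0) (hq : ∀ x ∈ Ioo p L, 0 < y x)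
    (hD : ∀ x ∈ Icc p L, HasDerivAt D (y x ^ 2 - u x ^ 2) x) (Dp : D p = 0) (DL : D L = 0)
    (hx : ∃ x ∈ Ioo p L, 0 < D x) : False := by
  obtain ⟨x, hx, h0⟩ := hx
  obtain ⟨s, hs, h1⟩ := mvt_pos hx.1.le (fun t ht => hD t ⟨ht.1, ht.2.trans hx.2.le⟩) (Dp ▸ h0)
  obtain ⟨t, ht, h2⟩ := mvt_neg hx.2.le (fun t ht => hD t ⟨hx.1.le.trans ht.1, ht.2⟩) (DL ▸ h0)
  have hst := hs.2.trans ht.1
  have hW : ∀ z ∈ Ioo p L, 0 ≤ y' z * u z - y z * u' z := fun z hz => by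
    have := le_of_der_nonneg (f := fun z => -(y' z * u z - y z * u' z))
      (f' := fun z => (b - a) * (y z * u z)) hz.2.le (fun v hv => by
        have g1 := hu v ⟨hz.1.le.trans hv.1, hv.2⟩
        have g2 := hy v ⟨hz.1.le.trans hv.1, hv.2⟩
        exact ((g2.2.fun_mul g1.1).fun_sub (g2.1.fun_mul g1.2)).fun_neg.congr_deriv (by ring))
      fun v hv => (mul_pos (sub_pos.2 hab) (mul_pos (hq v ⟨hz.1.trans hv.1, hv.2⟩)
        (hp v ⟨hz.1.trans hv.1, hv.2⟩))).le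
    simp only [uL, yL] at this
    linarith
  have m : ∀ v ∈ Icc s t, v ∈ Ioo p L := fun v hv => ⟨hs.1.trans_le hv.1, hv.2.trans_lt ht.2⟩
  have := le_of_der_nonneg hst.le (fun v hv => (hy v (Ioo_subset_Icc_self (m v hv))).1.fun_div
    (hu v (Ioo_subset_Icc_self (m v hv))).1 (hp v (m v hv)).ne')
    fun v hv => div_nonneg (hW v (m v (Ioo_subset_Icc_self hv))) (sq_nonneg _)
  have ms := m s ⟨le_rfl, hst.le⟩
  have mt := m t ⟨hst.le, le_rfl⟩
  have g1 := (one_lt_div (hp s ms)).2 (lt_of_pow_lt_pow_left₀ 2 (hq s ms).le (sub_pos.1 h1))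
  have g2 := (div_lt_one (hp t mt)).2 (lt_of_pow_lt_pow_left₀ 2 (hp t mt).le (sub_neg.1 h2))
  linarith

theorem cvx_refl {V : ℝ → ℝ} {s a b : ℝ} (h : ConvexOn ℝ (Icc a b) V) :
    ConvexOn ℝ (Icc (s - b) (s - a)) fun x => V (s - x) :=
  ⟨convex_Icc _ _, fun x hx y hy α β h1 h2 h3 => by
    have := h.2 (x := s - x) ⟨by linarith [hx.2], by linarith [hx.1]⟩ (y := s - y)
      ⟨by linarith [hy.2], by linarith [hy.1]⟩ h1 h2 h3
    rwa [show α • (s - x) + β • (s - y) = s - (α • x + β • y) by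
      simp only [smul_eq_mul]; linear_combination s * h3] at this⟩

theorem capR {L Γ : ℝ} (hL : 0 < L) (hΓ : 0 < Γ) : ∃ M0 : ℝ, ∀ M, M0 ≤ M →
    ∀ (V u u' y y' D : ℝ → ℝ) (a b p : ℝ), ConvexOn ℝ (Icc 0 L) V → ContinuousOn V (Icc 0 L) →
      Sol (fun x => V x - a) u u' 0 L → u 0 = 0 → u L = 0 → (∀ x ∈ Ioo 0 L, 0 < u x) →
      (∀ x ∈ Icc 0 L, 0 ≤ u' x ^ 2 + (a - V x) * u x ^ 2) → Sol (fun x => V x - b) y y' 0 L →
      y 0 = 0 → y L = 0 → (∃ x ∈ Icc 0 L, y x ≠ 0) → a < b → b - a < Γ →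
      (∀ x ∈ Icc 0 L, HasDerivAt D (y x ^ 2 - u x ^ 2) x) → D L = 0 → 0 ≤ p → D p = 0 →
      (∃ x ∈ Ioo p L, 0 < D x) → (∀ s t, p < s → s ≤ t → t ≤ L → V s + M * (t - s) ≤ V t) →
      False := by
  obtain ⟨K, hK, hG⟩ := lemG hL hΓ
  refine ⟨3 * L * (K + Γ) ^ 2, fun M hM V u u' y y' D a b p hV cV hu u0 uL hp he hy y0 yL hy0 hab
    hγ hD DL p0 Dp hx hs => ?_⟩
  have m : ∀ x ∈ Icc p L, x ∈ Icc 0 L := fun x hx => ⟨p0.trans hx.1, hx.2⟩
  have hp' : ∀ x ∈ Ioo p L, 0 < u x := fun x hx => hp x ⟨p0.trans_lt hx.1, hx.2⟩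
  obtain ⟨z, hz, yz⟩ : ∃ z ∈ Ioo p L, y z = 0 := by
    by_contra hn
    push Not at hn
    have cy := (hy.mono p0 le_rfl).cont.mono Ioo_subset_Icc_self
    by_cases h : ∀ x ∈ Ioo p L, 0 < y x
    · exact nozero hab (hu.mono p0 le_rfl) uL hp' (hy.mono p0 le_rfl) yL h
        (fun x hx => hD x (m x hx)) Dp DL hx
    push Not at h
    obtain ⟨x, h1, h2⟩ := h
    refine nozero hab (hu.mono p0 le_rfl) uL hp' ((hy.mono p0 le_rfl).smul (-1)) (by simp [yL])
      (fun t ht => ?_) (fun x hx => by simpa using hD x (m x hx)) Dp DL hx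
    have := isPreconnected_Ioo.gt_of_ne cy hn ⟨x, h1, h2.lt_of_ne (hn x h1)⟩ ht
    linarith
  have z0 := p0.trans_lt hz.1
  have cq : ContinuousOn (fun x => V x - b) (Icc 0 L) := cV.sub continuousOn_const
  obtain ⟨x1, n1, k1⟩ := nontriv hy cq hy0 z0.le hz.2 le_rfl
  obtain ⟨x2, n2, k2⟩ := nontriv hy cq hy0 le_rfl z0 hz.2.le
  have h1 := lemA (E := K + Γ) (by linarith) hM (by linarith)
    (fun x hx => hs z x hz.1 hx.1 hx.2) (hy.mono z0.le le_rfl) yz yL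
    ⟨x1, Ioo_subset_Icc_self n1, k1⟩
  have h2 : a ≤ V z + K := by
    rcases le_total (u' z) 0 with h | h
    · exact hG V u u' y y' a b z L hz.2 (by linarith)
        (hV.subset (Icc_subset_Icc_left z0.le) (convex_Icc _ _)) (hu.mono z0.le le_rfl)
        (fun x hx => hp x ⟨z0.trans_le hx.1, hx.2⟩) uL h
        (fun x hx => he x ⟨z0.le.trans hx.1, hx.2⟩) (hy.mono z0.le le_rfl) yz yL
        ⟨x1, Ioo_subset_Icc_self n1, k1⟩ hγ
    · simpa using hG (fun x => V (0 - x)) _ _ _ _ a b (0 - z) (0 - 0) (by linarith)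
        (by linarith [hz.2])
        (cvx_refl (hV.subset (Icc_subset_Icc_right hz.2.le) (convex_Icc _ _)))
        ((hu.mono le_rfl hz.2.le).refl 0)
        (fun x hx => hp _ ⟨by linarith [hx.2], by linarith [hx.1, hz.2]⟩) (by simpa using u0)
        (by simpa using h)
        (fun x hx => by simpa using he (0 - x) ⟨by linarith [hx.2], by linarith [hx.1, hz.2]⟩)
        ((hy.mono le_rfl hz.2.le).refl 0) (by simpa using yz) (by simpa using y0)
        ⟨0 - x2, ⟨by linarith [n2.2], by linarith [n2.1]⟩, by simpa using k2⟩ hγ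
  linarith

end Pool.Agent.Lib.MP_6547d0_mp.G
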