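import Pool.Agent.Lib.MP_6547d0_mp.G.Pert

/-! Second order expansion of the eigenvalues of a small linear potential on `[0, π]`. -/

set_option autoImplicit false

namespace Pool.Agent.Lib.MP_6547d0_mp.G

open Set Filter Topology Real MeasureTheory intervalIntegral

theorem second {n : ℕ} (hn : 1 ≤ n) : ∃ b : ℝ → ℝ,
    (∀ t, IsNth π (fun x => 0 + t * x) n (b t)) ∧
      Tendsto (fun t => (b t - (n : ℝ) ^ 2 - t * (π / 2)) / t ^ 2) (𝓝[>] 0)
        (𝓝 (π ^ 2 / (48 * (n : ℝ) ^ 2) - 5 / (16 * (n : ℝ) ^ 4))) := by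
  obtain ⟨a, ha⟩ := nth_exists (V := fun _ => 0) pi_pos continuousOn_const hn
  have ea := nth_const (c := 0) pi_pos (fun _ _ => rfl) ha
  rw [mul_div_assoc, div_self (by positivity), mul_one, add_zero] at ea
  subst ea
  have sn : sin (n * π) = 0 := sin_nat_mul_pi n
  have k0 : (0 : ℝ) < n := by exact_mod_cast hn
  generalize (n : ℝ) = k at *
  have k1 := k0.ne'
  have hs : ∀ x, HasDerivAt (fun x => sin (k * x)) (k * cos (k * x)) x := fun x =>
    ((hasDerivAt_id' x).const_mul k).sin.congr_deriv (by ring)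
  have hc : ∀ x, HasDerivAt (fun x => cos (k * x)) (-(k * sin (k * x))) x := fun x =>
    ((hasDerivAt_id' x).const_mul k).cos.congr_deriv (by ring)
  have hx : ∀ x, HasDerivAt (fun x : ℝ => x - π / 2) 1 x := fun x => (hasDerivAt_id' x).sub_const _
  have hq : ∀ x, HasDerivAt (fun x : ℝ => x * (π - x)) (-2 * (x - π / 2)) x := fun x =>
    ((hasDerivAt_id' x).fun_mul ((hasDerivAt_id' x).const_sub π)).congr_deriv (by ring)
  have hu : Sol (fun _ => 0 - k ^ 2) (fun x => sin (k * x)) (fun x => k * cos (k * x)) 0 π :=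
    fun x _ => ⟨hs x, ((hc x).const_mul k).congr_deriv (by ring)⟩
  obtain ⟨χ, eχ⟩ : ∃ χ : ℝ → ℝ, χ = fun x => -((x - π / 2) * sin (k * x)) / (4 * k ^ 2)
    - x * (π - x) * cos (k * x) / (4 * k) := ⟨_, rfl⟩
  have cχ : Continuous χ := by rw [eχ]; fun_prop
  have hχ : ∀ x, HasDerivAt χ (-sin (k * x) / (4 * k ^ 2) + (x - π / 2) * cos (k * x) / (4 * k)
      + x * (π - x) * sin (k * x) / 4) x ∧ HasDerivAt (fun x => -sin (k * x) / (4 * k ^ 2)
      + (x - π / 2) * cos (k * x) / (4 * k) + x * (π - x) * sin (k * x) / 4)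
      (-k ^ 2 * χ x - (x - π / 2) * sin (k * x)) x := fun x => by
    rw [eχ]
    refine ⟨((((hx x).fun_mul (hs x)).fun_neg.div_const _).fun_sub
      (((hq x).fun_mul (hc x)).div_const _)).congr_deriv ?_,
      ((((hs x).fun_neg.div_const _).fun_add (((hx x).fun_mul (hc x)).div_const _)).fun_add
        (((hq x).fun_mul (hs x)).div_const _)).congr_deriv ?_⟩ <;> field_simp <;> ring
  have I1 : ∫ x in (0 : ℝ)..π, sin (k * x) * sin (k * x) = π / 2 := by
    rw [integral_eq_sub_of_hasDerivAt (f := fun x => x / 2 - sin (k * x) * cos (k * x) / (2 * k))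
      (fun x _ => (((hasDerivAt_id' x).div_const 2).fun_sub
        (((hs x).fun_mul (hc x)).div_const _)).congr_deriv (by
          field_simp
          linear_combination -sin_sq_add_cos_sq (k * x)))
      (Continuous.intervalIntegrable (by fun_prop) _ _)]
    simp [sn]
  have I2 : ∫ x in (0 : ℝ)..π, (x - π / 2) * χ x * sin (k * x)
      = -(π / 2 * (π ^ 2 / (48 * k ^ 2) - 5 / (16 * k ^ 4))) := by
    obtain ⟨α, eα⟩ : ∃ α, α = 5 / (16 * k ^ 3) := ⟨_, rfl⟩
    obtain ⟨β, eβ⟩ : ∃ β, β = -π ^ 2 / (64 * k ^ 3) - 5 / (32 * k ^ 5) := ⟨_, rfl⟩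
    rw [integral_eq_sub_of_hasDerivAt (f := fun x => -k * (α * (x - π / 2) ^ 3 / 3 + β * (x - π / 2))
      + (-((x - π / 2) * (x * (π - x))) / (4 * k) - 2 * α * (x - π / 2)) / (2 * k)
        * (sin (k * x) * sin (k * x)) + (α * (x - π / 2) ^ 2 + β) * (sin (k * x) * cos (k * x)))
      (fun x _ => ((((((((hx x).fun_pow 3).const_mul α).div_const 3).fun_add
        ((hx x).const_mul β)).const_mul (-k)).fun_add
        ((((((hx x).fun_mul (hq x)).fun_neg.div_const _).fun_sub
          ((hx x).const_mul (2 * α))).div_const _).fun_mul ((hs x).fun_mul (hs x)))).fun_add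
        (((((hx x).fun_pow 2).const_mul α).add_const β).fun_mul
          ((hs x).fun_mul (hc x)))).congr_deriv (by
          have e : cos (k * x) ^ 2 = 1 - sin (k * x) ^ 2 := cos_sq' _
          simp only [eχ, Nat.cast_ofNat, Nat.add_one_sub_one, pow_one]
          have e1 : k * cos (k * x) * cos (k * x) = k * (1 - sin (k * x) ^ 2) := by
            rw [← e]; ring
          rw [e1, eα, eβ]
          field_simp
          ring))
      (Continuous.intervalIntegrable (by fun_prop) _ _)]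
    simp only [sn, mul_zero, sin_zero, zero_mul, add_zero, eα, eβ]
    field_simp
    ring
  obtain ⟨b, y, y', h1, -, h3⟩ := close (W := fun x => x) pi_pos continuousOn_const
    continuousOn_id ha hn hu (by simp)
  refine ⟨b, fun t => (h1 t).1, ?_⟩
  have l1 := h3 (fun x => sin (k * x)) (by fun_prop)
  have l2 := h3 χ cχ.continuousOn
  have l3 := h3 (fun x => (x - π / 2) * χ x) (by fun_prop)
  rw [I1] at l1
  rw [I2] at l3
  have l4 := l1.sub (tendsto_id.mul l2)
  have p0 : π / 2 ≠ 0 := by positivity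
  simp only [id, zero_mul, sub_zero] at l4
  have l5 := (l3.neg.div l4 p0).mono_left (nhdsWithin_le_nhds (s := Ioi 0))
  rw [neg_neg, mul_div_cancel_left₀ _ p0] at l5
  refine l5.congr' ?_
  filter_upwards [self_mem_nhdsWithin, nhdsWithin_le_nhds (l4.eventually_ne p0)] with t ht h0
  obtain ⟨-, hy, y0, yL⟩ := h1 t
  have cq : ContinuousOn (fun x => 0 + t * x - b t) (Icc 0 π) := by fun_prop
  have g1 := green pi_pos.le hy cq hu (by fun_prop) y0 yL (by simp) sn
  have g2 := green pi_pos.le hy cq (fun x _ => hχ x) (by fun_prop) y0 yL (by simp [eχ])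
    (by simp [eχ, sn])
  have i : ∀ g : ℝ → ℝ, Continuous g → IntervalIntegrable (fun x => g x * y t x) volume 0 π :=
    fun g hg => (hg.continuousOn.fun_mul hy.cont).intervalIntegrable_of_Icc pi_pos.le
  have i1 := i (fun x => sin (k * x)) (by fun_prop)
  have i2 := i (fun x => (x - π / 2) * sin (k * x)) (by fun_prop)
  have i3 := i χ cχ
  have i4 := i (fun x => (x - π / 2) * χ x) (by fun_prop)
  rw [integral_congr (g := fun x => (b t - k ^ 2 - t * (π / 2)) * (sin (k * x) * y t x)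
      - t * ((x - π / 2) * sin (k * x) * y t x)) fun x _ => by ring,
    intervalIntegral.integral_sub (i1.const_mul _) (i2.const_mul _),
    intervalIntegral.integral_const_mul, intervalIntegral.integral_const_mul] at g1
  rw [integral_congr (g := fun x => (b t - k ^ 2 - t * (π / 2)) * (χ x * y t x)
      - t * ((x - π / 2) * χ x * y t x) - (x - π / 2) * sin (k * x) * y t x) fun x _ => by ring,
    intervalIntegral.integral_sub ((i3.const_mul _).sub (i4.const_mul _)) i2,
    intervalIntegral.integral_sub (i3.const_mul _) (i4.const_mul _),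
    intervalIntegral.integral_const_mul, intervalIntegral.integral_const_mul] at g2
  have ht' : t ^ 2 ≠ 0 := pow_ne_zero _ (ne_of_gt ht)
  simp only [Pi.div_apply]
  rw [div_eq_div_iff h0 ht']
  linear_combination t * g2 - g1

theorem conv {n m : ℕ} (hn : 2 ≤ n) (hnm : n < m) : ∃ t a b : ℝ,
    IsNth π (fun x => 0 + t * x) n a ∧ IsNth π (fun x => 0 + t * x) m b ∧
      b - a < (m : ℝ) ^ 2 - (n : ℝ) ^ 2 := by
  obtain ⟨α, h1, h2⟩ := second (n := n) (by omega)
  obtain ⟨β, h3, h4⟩ := second (n := m) (by omega)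
  have n2 : (2 : ℝ) ≤ n := by exact_mod_cast hn
  have nm : (n : ℝ) < m := by exact_mod_cast hnm
  have key : π ^ 2 / (48 * (m : ℝ) ^ 2) - 5 / (16 * (m : ℝ) ^ 4)
      < π ^ 2 / (48 * (n : ℝ) ^ 2) - 5 / (16 * (n : ℝ) ^ 4) := by
    have e : ∀ k : ℝ, 0 < k → π ^ 2 / (48 * k ^ 2) - 5 / (16 * k ^ 4)
        = π ^ 2 / 48 * (1 / k ^ 2) - 5 / 16 * (1 / k ^ 2) ^ 2 := fun k hk => by field_simp
    rw [e _ (by linarith), e _ (by linarith)]
    have a1 : 1 / (m : ℝ) ^ 2 < 1 / (n : ℝ) ^ 2 :=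
      one_div_lt_one_div_of_lt (by positivity) (by nlinarith)
    have a2 : 1 / (n : ℝ) ^ 2 ≤ 1 / 4 := one_div_le_one_div_of_le (by norm_num) (by nlinarith)
    have a3 : 9 < π ^ 2 := by nlinarith [pi_gt_three]
    nlinarith [mul_pos (sub_pos.2 a1) (show 0 < π ^ 2 / 48 - 5 / 16 * (1 / (n : ℝ) ^ 2
      + 1 / (m : ℝ) ^ 2) by linarith)]
  obtain ⟨t, g1, g2⟩ := ((h4.eventually_lt h2 key).and self_mem_nhdsWithin).exists
  refine ⟨t, α t, β t, h1 t, h3 t, ?_⟩
  rw [div_lt_div_iff_of_pos_right (pow_pos g2 2)] at g1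
  linarith

end Pool.Agent.Lib.MP_6547d0_mp.G
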