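import Pool.Agent.Lib.MP_6547d0_mp.G.Cap

/-! A critical potential whose slope bound is inactive is constant. -/

set_option autoImplicit false

namespace Pool.Agent.Lib.MP_6547d0_mp.G

open Set Filter Topology Real MeasureTheory intervalIntegral

theorem prodc {r g : ℝ → ℝ} {M x : ℝ} {s : Set ℝ} (hr : ∀ x, |r x| ≤ M)
    (hg : ContinuousWithinAt g s x) (h0 : g x = 0) :
    ContinuousWithinAt (fun z => r z * g z) s x := by
  have t : Tendsto (fun z => M * |g z|) (𝓝[s] x) (𝓝 0) := by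
    simpa [h0] using hg.tendsto.abs.const_mul M
  simp only [ContinuousWithinAt, h0, mul_zero]
  exact squeeze_zero_norm (fun z => by
    rw [norm_mul]; exact mul_le_mul_of_nonneg_right (hr z) (norm_nonneg _)) t

theorem prodd {r g : ℝ → ℝ} {g' x : ℝ} (hr : ContinuousWithinAt r (Ioi x) x)
    (hg : HasDerivAt g g' x) (h0 : g x = 0) :
    HasDerivWithinAt (fun z => r z * g z) (r x * g') (Ioi x) x := by
  rw [hasDerivWithinAt_iff_tendsto_slope' self_notMem_Ioi]
  refine (hr.tendsto.mul ((hasDerivWithinAt_iff_tendsto_slope' self_notMem_Ioi).1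
    hg.hasDerivWithinAt)).congr fun z => ?_
  simp only [slope_def_field, h0, mul_zero, sub_zero, mul_div_assoc]

theorem bsign {V r h h1 D G y y' : ℝ → ℝ} {b s t σ : ℝ} (hV : ContinuousOn V (Icc s t))
    (hd : ∀ x ∈ Ioo s t, HasDerivWithinAt V (r x) (Ioi x) x)
    (hh : ∀ x ∈ Icc s t, HasDerivAt h (h1 x) x) (hD : ∀ x ∈ Icc s t, HasDerivAt D (h x) x)
    (hG : ∀ x ∈ Icc s t, HasDerivAt G (D x) x) (hy : Sol (fun x => V x - b) y y' s t)
    (hy0 : ∃ x ∈ Ioo s t, y x ≠ 0) (Gs : G s = 0) (Ds : D s = 0) (Gt : G t = 0) (Dt : D t = 0)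
    (e1 : y s * h s = 0) (e2 : y t * h t = 0)
    (hp : ∀ x ∈ Ioo s t, 0 < σ * (h1 x - 4 * (V x - b) * D x - 2 * (r x * G x))) : False := by
  have c : ∀ {f f' : ℝ → ℝ}, (∀ x ∈ Icc s t, HasDerivAt f (f' x) x) → ContinuousOn f (Icc s t) :=
    fun h x hx => (h x hx).continuousAt.continuousWithinAt
  have := rlt (f := fun x => σ * (y x * (y x * h x) - 2 * (y x * y' x) * D x
      + 2 * (y' x ^ 2 - (V x - b) * y x ^ 2) * G x))
    (f' := fun x => y x ^ 2 * (σ * (h1 x - 4 * (V x - b) * D x - 2 * (r x * G x))))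
    (continuousOn_const.mul (((hy.cont.mul (hy.cont.mul (c hh))).sub
      ((continuousOn_const.mul (hy.cont.mul hy.cont')).mul (c hD))).add
      ((continuousOn_const.mul ((hy.cont'.pow 2).sub ((hV.sub continuousOn_const).mul
        (hy.cont.pow 2)))).mul (c hG))))
    (fun x hx => by
      have m := Ioo_subset_Icc_self hx
      have g1 := (hy x m).1.hasDerivWithinAt (s := Ioi x)
      have g2 := (hy x m).2.hasDerivWithinAt (s := Ioi x)
      refine ((((g1.fun_mul (g1.fun_mul (hh x m).hasDerivWithinAt)).fun_sub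
        (((g1.fun_mul g2).const_mul 2).fun_mul (hD x m).hasDerivWithinAt)).fun_add
        ((((g2.fun_pow 2).fun_sub (((hd x hx).sub_const b).fun_mul (g1.fun_pow 2))).const_mul
          2).fun_mul (hG x m).hasDerivWithinAt)).const_mul σ).congr_deriv ?_
      simp only [Nat.cast_ofNat, Nat.add_one_sub_one, pow_one]
      ring)
    (fun x hx => mul_nonneg (sq_nonneg _) (hp x hx).le)
    (by obtain ⟨x, hx, h0⟩ := hy0; exact ⟨x, hx, mul_pos (by positivity) (hp x hx)⟩)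
  simp [Gs, Ds, Gt, Dt, e1, e2] at this

theorem dz {L : ℝ} {D G : ℝ → ℝ} (hG : ∀ x ∈ Icc 0 L, HasDerivAt G (D x) x) (D0 : D 0 = 0)
    (DL : D L = 0) (Gp : ∀ x ∈ Icc 0 L, 0 ≤ G x) : ∀ x ∈ Icc 0 L, G x = 0 → D x = 0 := by
  intro x hx h
  rcases hx.1.eq_or_lt with rfl | h1
  · exact D0
  rcases hx.2.eq_or_lt with rfl | h2
  · exact DL
  refine IsLocalMin.hasDerivAt_eq_zero ?_ (hG x hx)
  filter_upwards [Icc_mem_nhds h1 h2] with z hz using h ▸ Gp z hz

theorem core {L M a b : ℝ} {V r u u' y y' D G : ℝ → ℝ} (hL : 0 < L)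
    (hV : ContinuousOn V (Icc 0 L)) (hr : Monotone r) (rb : ∀ x, |r x| ≤ M)
    (hd : ∀ x ∈ Ioo 0 L, HasDerivWithinAt V (r x) (Ioi x) x ∧ ContinuousWithinAt r (Ioi x) x)
    (hu : Sol (fun x => V x - a) u u' 0 L) (u0 : u 0 = 0) (uL : u L = 0)
    (uN : ∫ x in (0 : ℝ)..L, u x ^ 2 = 1) (hp : ∀ x ∈ Ioo 0 L, 0 < u x)
    (hy : Sol (fun x => V x - b) y y' 0 L) (y0 : y 0 = 0) (yL : y L = 0) (hab : a < b)
    (hD : ∀ x ∈ Icc 0 L, HasDerivAt D (y x ^ 2 - u x ^ 2) x)
    (hG : ∀ x ∈ Icc 0 L, HasDerivAt G (D x) x) (D0 : D 0 = 0) (DL : D L = 0) (G0 : G 0 = 0)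
    (GE : G L = 0) (Gp : ∀ x ∈ Icc 0 L, 0 ≤ G x)
    (hk : ∀ s t, 0 ≤ s → s ≤ t → t ≤ L → (∀ x ∈ Icc s t, 0 < G x) → r s = r t) :
    ∀ x ∈ Icc 0 L, V x = V 0 := by
  have c : ∀ {f f' : ℝ → ℝ}, (∀ x ∈ Icc 0 L, HasDerivAt f (f' x) x) → ContinuousOn f (Icc 0 L) :=
    fun h x hx => (h x hx).continuousAt.continuousWithinAt
  have hd1 := fun x hx => (hd x hx).1
  have loc : ∀ x ∈ Ioo 0 L, 0 < G x → ∀ᶠ z in 𝓝 x, r z = r x := fun x hx h => by
    obtain ⟨s, t, h1, h2, h3⟩ := exists_Icc_mem_subset_of_mem_nhds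
      (((hG x (Ioo_subset_Icc_self hx)).continuousAt.eventually_const_lt h).and
        (Icc_mem_nhds hx.1 hx.2))
    have hst := h1.1.trans h1.2
    have := hk s t (h3 ⟨le_rfl, hst⟩).2.1 hst (h3 ⟨hst, le_rfl⟩).2.2 fun z hz => (h3 hz).1
    filter_upwards [h2] with z hz
    linarith [hr hz.1, hr hz.2, hr h1.1, hr h1.2]
  have inn : ∀ x ∈ Icc 0 L, 0 < G x → x ∈ Ioo 0 L := fun x hx h =>
    ⟨hx.1.lt_of_ne (by rintro rfl; linarith), hx.2.lt_of_ne (by rintro rfl; linarith)⟩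
  have Dz := dz hG D0 DL Gp
  have both : ∀ g g' : ℝ → ℝ, (∀ x ∈ Icc 0 L, HasDerivAt g (g' x) x) →
      (∀ x ∈ Icc 0 L, G x = 0 → g x = 0) → ContinuousOn (fun z => r z * g z) (Icc 0 L) ∧
      ∀ x ∈ Ioo 0 L, HasDerivWithinAt (fun z => r z * g z) (r x * g' x) (Ioi x) x :=
    fun g g' h1 h2 => by
      have k : ∀ x ∈ Icc 0 L, 0 < G x → HasDerivAt (fun z => r z * g z) (r x * g' x) x :=
        fun x hx h => ((h1 x hx).const_mul (r x)).congr_of_eventuallyEq (by
          filter_upwards [loc x (inn x hx h) h] with z hz using by rw [hz])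
      refine ⟨fun x hx => ?_, fun x hx => ?_⟩
      · rcases (Gp x hx).eq_or_lt with h | h
        · exact prodc rb (c h1 x hx) (h2 x hx h.symm)
        · exact (k x hx h).continuousAt.continuousWithinAt
      · have m := Ioo_subset_Icc_self hx
        rcases (Gp x m).eq_or_lt with h | h
        · exact prodd (hd x hx).2 (h1 x m) (h2 x m h.symm)
        · exact (k x m h).hasDerivWithinAt
  obtain ⟨c1, d1⟩ := both D _ hD Dz
  obtain ⟨c2, d2⟩ := both G _ hG fun _ _ h => h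
  obtain ⟨F, F0, FL, hF⟩ := prim hL.le (hu.cont.fun_pow 2)
  rw [uN] at FL
  obtain ⟨F1, -, -, hF1⟩ := prim hL.le (c hF)
  have hh : ∀ x ∈ Icc 0 L, HasDerivAt (fun x => y x ^ 2 - u x ^ 2)
      (2 * (y x * y' x - u x * u' x)) x := fun x hx => by
    refine (((hy x hx).1.fun_pow 2).fun_sub ((hu x hx).1.fun_pow 2)).congr_deriv ?_
    simp only [Nat.cast_ofNat, Nat.add_one_sub_one, pow_one]
    ring
  have hZ := rconst (((cont_en hy hV).fun_sub (cont_en hu hV)).fun_add c1) fun x hx =>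
    (((der_en hy hx (hd1 x hx)).fun_sub (der_en hu hx (hd1 x hx))).fun_add
      (d1 x hx)).congr_deriv (by ring)
  obtain ⟨Z, eZ⟩ : ∃ Z, ∀ x ∈ Icc 0 L, y' x ^ 2 + (b - V x) * y x ^ 2
      - (u' x ^ 2 + (a - V x) * u x ^ 2) + r x * D x = Z := ⟨_, hZ⟩
  have hT := rconst (f := fun x => 2 * (y x * y' x - u x * u' x) - 4 * (V x - b) * D x
      + 6 * (r x * G x) - 2 * Z * x + 4 * (b - a) * F x)
    (((((continuousOn_const.mul ((hy.cont.mul hy.cont').sub (hu.cont.mul hu.cont'))).sub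
      ((continuousOn_const.mul (hV.sub continuousOn_const)).mul (c hD))).add
      (continuousOn_const.mul c2)).sub (by fun_prop)).add (continuousOn_const.mul (c hF)))
    fun x hx => by
      have m := Ioo_subset_Icc_self hx
      refine ((((((((hy x m).1.fun_mul (hy x m).2).fun_sub ((hu x m).1.fun_mul
        (hu x m).2)).const_mul 2).hasDerivWithinAt.fun_sub
        ((((hd1 x hx).sub_const b).const_mul 4).fun_mul (hD x m).hasDerivWithinAt)).fun_add
        ((d2 x hx).const_mul 6)).fun_sub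
        ((hasDerivAt_id' x).const_mul (2 * Z)).hasDerivWithinAt).fun_add
        ((hF x m).const_mul (4 * (b - a))).hasDerivWithinAt).congr_deriv ?_
      rw [← eZ x m]
      ring
  simp only [y0, u0, D0, G0, F0, zero_mul, mul_zero, sub_zero, add_zero] at hT
  have hTL := hT L ⟨hL.le, le_rfl⟩
  simp only [yL, uL, DL, GE, FL, zero_mul, mul_zero, sub_zero, add_zero] at hTL
  have eT : ∀ x ∈ Icc 0 L, 2 * (y x * y' x - u x * u' x) - 4 * (V x - b) * D x
      = 4 * (b - a) * (x / L - F x) - 6 * (r x * G x) := fun x hx => by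
    have e : Z = 2 * (b - a) / L := by field_simp; linarith
    have := hT x hx
    rw [e] at this
    linear_combination this
  have γ0 := sub_pos.2 hab
  have hP : ∀ σ : ℝ, (∀ x ∈ Ioo 0 L, 0 ≤ σ * r x) → 0 ≤ σ * (L / 2 - (F1 L - F1 0)) := fun σ hσ => by
    have := rle (f := fun x => σ * (4 * (b - a) * (x ^ 2 / (2 * L) - F1 x)
        - (y x ^ 2 - u x ^ 2 - 4 * (V x - b) * G x))) (f' := fun x => 10 * (σ * r x * G x)) hL.le
      (continuousOn_const.mul ((continuousOn_const.mul (ContinuousOn.sub (by fun_prop) (c hF1))).sub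
        ((c hh).sub ((continuousOn_const.mul (hV.sub continuousOn_const)).mul (c hG)))))
      (fun x hx => by
        have m := Ioo_subset_Icc_self hx
        refine (((((((hasDerivAt_id' x).fun_pow 2).div_const (2 * L)).fun_sub
          (hF1 x m)).const_mul (4 * (b - a))).hasDerivWithinAt.fun_sub
          ((hh x m).hasDerivWithinAt.fun_sub ((((hd1 x hx).sub_const b).const_mul 4).fun_mul
            (hG x m).hasDerivWithinAt))).const_mul σ).congr_deriv ?_
        simp only [Nat.cast_ofNat, Nat.add_one_sub_one, pow_one]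
        rw [show 2 * x * 1 / (2 * L) = x / L by field_simp]
        linear_combination -σ * eT x m)
      fun x hx => mul_nonneg (by norm_num) (mul_nonneg (hσ x hx) (Gp x (Ioo_subset_Icc_self hx)))
    simp only [y0, u0, G0, yL, uL, GE] at this
    rw [show L ^ 2 / (2 * L) = L / 2 by field_simp, show (0 : ℝ) ^ 2 / (2 * L) = 0 by simp] at this
    exact le_of_mul_le_mul_left (by nlinarith) γ0
  have hm : ∀ σ : ℝ, (∀ x ∈ Ioo 0 L, 0 ≤ σ * r x) → ∀ s ∈ Icc 0 L, ∀ t ∈ Icc 0 L, s ≤ t →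
      σ * V s ≤ σ * V t := fun σ hσ s hs t ht hst =>
    rle (f := fun x => σ * V x) hst (continuousOn_const.mul (hV.mono (Icc_subset_Icc hs.1 ht.2)))
      (fun x hx => (hd1 x ⟨hs.1.trans_lt hx.1, hx.2.trans_le ht.2⟩).const_mul σ)
      fun x hx => hσ x ⟨hs.1.trans_lt hx.1, hx.2.trans_le ht.2⟩
  have m0 : (0 : ℝ) ∈ Icc 0 L := ⟨le_rfl, hL.le⟩
  have mL : L ∈ Icc 0 L := ⟨hL.le, le_rfl⟩
  by_cases h1 : ∀ x ∈ Ioo 0 L, 0 ≤ 1 * r x
  · have g1 := hP 1 h1
    have g2 := hm 1 h1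
    simp only [one_mul] at g1 g2
    have g3 : V L ≤ V 0 := not_lt.1 fun h => by
      have := reflmono hL hV (fun s hs t ht hst => g2 s hs t ht hst) h hu u0 uL hp hF hF1
      rw [F0, FL] at this
      linarith
    exact fun x hx => by linarith [g2 0 m0 x hx hx.1, g2 x hx L mL hx.2]
  by_cases h2 : ∀ x ∈ Ioo 0 L, 0 ≤ -1 * r x
  · have g1 := hP (-1) h2
    have g2 := hm (-1) h2
    have i : ∀ x ∈ Icc 0 L, L - x ∈ Icc 0 L := fun x hx => ⟨by linarith [hx.2], by linarith [hx.1]⟩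
    have g3 : V 0 ≤ V L := not_lt.1 fun h => by
      have := reflmono (V := fun x => V (L - x)) (F := fun x => -F (L - x))
        (F1 := fun x => F1 (L - x)) hL (hV.comp (by fun_prop) i)
        (fun s hs t ht hst => by linarith [g2 _ (i t ht) _ (i s hs) (by linarith)])
        (by simpa using h) hu.refl0 (by simpa using uL) (by simpa using u0)
        (fun x hx => hp _ ⟨by linarith [hx.2], by linarith [hx.1]⟩)
        (fun x hx => (hd_refl (hF _ (i x hx))).fun_neg.congr_deriv (by ring))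
        fun x hx => hd_refl (hF1 _ (i x hx))
      simp only [sub_zero, sub_self, F0, FL] at this
      linarith
    exact fun x hx => by linarith [g2 0 m0 x hx hx.1, g2 x hx L mL hx.2]
  exfalso
  push Not at h1 h2
  obtain ⟨x1, m1, h1⟩ := h1
  obtain ⟨x2, m2, h2⟩ := h2
  have bd : x2 ∈ upperBounds {x | r x < 0} := fun x (hx : r x < 0) =>
    not_lt.1 fun h => by linarith [hr h.le]
  have n1 : x1 ∈ {x | r x < 0} := by simpa using h1
  obtain ⟨p, hp'⟩ : ∃ p, IsLUB {x | r x < 0} p := ⟨_, isLUB_csSup ⟨x1, n1⟩ ⟨x2, bd⟩⟩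
  have mp : p ∈ Ioo 0 L := ⟨m1.1.trans_le (hp'.1 n1), (hp'.2 bd).trans_lt m2.2⟩
  have mp' := Ioo_subset_Icc_self mp
  have l1 : ∀ x, x < p → r x < 0 := fun x hx => by
    obtain ⟨z, hz, g, -⟩ := hp'.exists_between hx
    exact (hr g.le).trans_lt hz
  have l2 : ∀ x, p < x → 0 ≤ r x := fun x hx => not_lt.1 fun h => absurd (hp'.1 h) (not_le.2 hx)
  have Gc : G p = 0 := (Gp p mp').eq_of_not_lt' fun h => by
    obtain ⟨z1, g1, g2⟩ := (((loc p mp h).filter_mono nhdsWithin_le_nhds).and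
      (self_mem_nhdsWithin (s := Iio p))).exists
    obtain ⟨z2, g3, g4⟩ := (((loc p mp h).filter_mono nhdsWithin_le_nhds).and
      (self_mem_nhdsWithin (s := Ioi p))).exists
    linarith [l1 z1 g2, l2 z2 g4]
  have s1 : Icc 0 p ⊆ Icc 0 L := Icc_subset_Icc_right mp.2.le
  have s2 : Icc p L ⊆ Icc 0 L := Icc_subset_Icc_left mp.1.le
  have cq : ContinuousOn (fun x => V x - b) (Icc 0 L) := hV.sub continuousOn_const
  obtain ⟨s, hs, k1⟩ : ∃ s ∈ Ioo 0 p, s / L - F s ≤ 0 := by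
    by_contra hn
    push Not at hn
    obtain ⟨w, w', g1, g2, g3⟩ := exists_sol_left mp.1 (cq.mono s1)
    refine bsign (σ := 1) (hV.mono s1) (fun x hx => hd1 x ⟨hx.1, hx.2.trans mp.2⟩)
      (fun x hx => hh x (s1 hx)) (fun x hx => hD x (s1 hx)) (fun x hx => hG x (s1 hx)) g1
      (nontriv g1 (cq.mono s1) (ne_of_der mp.1 g1 ⟨mp.1.le, le_rfl⟩ g3) le_rfl mp.1 le_rfl) G0 D0
      Gc (Dz p mp' Gc) (by simp [y0, u0]) (by simp [g2]) fun x hx => ?_
    have m := s1 (Ioo_subset_Icc_self hx)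
    rw [eT x m]
    nlinarith [mul_pos γ0 (hn x hx), mul_nonneg (neg_pos.2 (l1 x hx.2)).le (Gp x m)]
  obtain ⟨t, ht, k2⟩ : ∃ t ∈ Ioo p L, 0 ≤ t / L - F t := by
    by_contra hn
    push Not at hn
    obtain ⟨w, w', g1, g2, g3⟩ := exists_sol_right mp.2 (cq.mono s2)
    refine bsign (σ := -1) (hV.mono s2) (fun x hx => hd1 x ⟨mp.1.trans hx.1, hx.2⟩)
      (fun x hx => hh x (s2 hx)) (fun x hx => hD x (s2 hx)) (fun x hx => hG x (s2 hx)) g1
      (nontriv g1 (cq.mono s2) (ne_of_der mp.2 g1 ⟨le_rfl, mp.2.le⟩ g3) le_rfl mp.2 le_rfl) Gc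
      (Dz p mp' Gc) GE DL (by simp [g2]) (by simp [yL, uL]) fun x hx => ?_
    have m := s2 (Ioo_subset_Icc_self hx)
    rw [eT x m]
    nlinarith [mul_pos γ0 (neg_pos.2 (hn x hx)), mul_nonneg (l2 x hx.1) (Gp x m)]
  exact cross (S := fun x => x / L - F x) hu u0 uL hp
    (fun x hx => by linarith [energy hV hr hd1 hu u0 uL x hx])
    (fun x hx => ((hasDerivAt_id' x).div_const L).fun_sub (hF x hx)) (by simp [F0])
    (by simp [FL, hL.ne']) hs.1 (hs.2.trans ht.1) ht.2 k1 k2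

end Pool.Agent.Lib.MP_6547d0_mp.G
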