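import Pool.Agent.Lib.MP_6547d0_mp.G.Kkt

/-! The ground state of a convex potential. -/

set_option autoImplicit false

namespace Pool.Agent.Lib.MP_6547d0_mp.G

open Set Filter Topology Real MeasureTheory intervalIntegral

theorem der_en {V r u u' : ℝ → ℝ} {L a x : ℝ} (hu : Sol (fun x => V x - a) u u' 0 L)
    (hx : x ∈ Ioo 0 L) (hd : HasDerivWithinAt V (r x) (Ioi x) x) :
    HasDerivWithinAt (fun x => u' x ^ 2 + (a - V x) * u x ^ 2) (-(r x * u x ^ 2)) (Ioi x) x := by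
  have h := hu x (Ioo_subset_Icc_self hx)
  refine ((h.2.hasDerivWithinAt.fun_pow 2).fun_add ((hd.const_sub a).fun_mul
    (h.1.hasDerivWithinAt.fun_pow 2))).congr_deriv ?_
  simp only [Nat.cast_ofNat, Nat.add_one_sub_one, pow_one]
  ring

theorem cont_en {V u u' : ℝ → ℝ} {L a : ℝ} (hu : Sol (fun x => V x - a) u u' 0 L)
    (hV : ContinuousOn V (Icc 0 L)) :
    ContinuousOn (fun x => u' x ^ 2 + (a - V x) * u x ^ 2) (Icc 0 L) :=
  (hu.cont'.pow 2).add ((continuousOn_const.sub hV).mul (hu.cont.pow 2))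

theorem energy {V r u u' : ℝ → ℝ} {L a : ℝ} (hV : ContinuousOn V (Icc 0 L)) (hr : Monotone r)
    (hd : ∀ x ∈ Ioo 0 L, HasDerivWithinAt V (r x) (Ioi x) x)
    (hu : Sol (fun x => V x - a) u u' 0 L) (u0 : u 0 = 0) (uL : u L = 0) :
    ∀ x ∈ Icc 0 L, 0 ≤ u' x ^ 2 + (a - V x) * u x ^ 2 := by
  intro x hx
  rcases le_total (r x) 0 with h | h
  · have := rle hx.1 ((cont_en hu hV).mono (Icc_subset_Icc_right hx.2))
      (fun t ht => der_en hu ⟨ht.1, ht.2.trans_le hx.2⟩ (hd t ⟨ht.1, ht.2.trans_le hx.2⟩))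
      fun t ht => by nlinarith [hr ht.2.le, sq_nonneg (u t)]
    simp only [u0] at this
    nlinarith [sq_nonneg (u' 0)]
  · have := rle hx.2 ((cont_en hu hV).mono (Icc_subset_Icc_left hx.1)).fun_neg
      (fun t ht => (der_en hu ⟨hx.1.trans_lt ht.1, ht.2⟩ (hd t ⟨hx.1.trans_lt ht.1, ht.2⟩)).fun_neg)
      fun t ht => by nlinarith [hr ht.1.le, sq_nonneg (u t)]
    simp only [uL] at this
    nlinarith [sq_nonneg (u' L)]

theorem wmono {q u u' : ℝ → ℝ} {s t κ : ℝ} (hst : s ≤ t) (hu : Sol q u u' s t)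
    (hp : ∀ x ∈ Icc s t, 0 < u x) (he : ∀ x ∈ Icc s t, κ * u x ^ 2 ≤ u' x ^ 2 - q x * u x ^ 2) :
    -u' s / u s + κ * (t - s) ≤ -u' t / u t := by
  have := le_of_der_nonneg (f := fun x => -u' x / u x - κ * x)
    (f' := fun x => (u' x ^ 2 - q x * u x ^ 2 - κ * u x ^ 2) / u x ^ 2) hst (fun x hx => by
      refine (((hu x hx).2.fun_neg.fun_div (hu x hx).1 (hp x hx).ne').fun_sub
        ((hasDerivAt_id' x).const_mul κ)).congr_deriv ?_
      have := (hp x hx).ne'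
      field_simp
      ring)
    fun x hx => div_nonneg (sub_nonneg.2 (he x (Ioo_subset_Icc_self hx))) (sq_nonneg _)
  linarith

theorem mvt_neg {f f' : ℝ → ℝ} {a b : ℝ} (hab : a ≤ b) (h : ∀ x ∈ Icc a b, HasDerivAt f (f' x) x)
    (hf : f b < f a) : ∃ x ∈ Ioo a b, f' x < 0 := by
  by_contra hn
  push Not at hn
  linarith [le_of_der_nonneg hab h hn]

theorem mvt_pos {f f' : ℝ → ℝ} {a b : ℝ} (hab : a ≤ b) (h : ∀ x ∈ Icc a b, HasDerivAt f (f' x) x)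
    (hf : f a < f b) : ∃ x ∈ Ioo a b, 0 < f' x := by
  obtain ⟨x, hx, h0⟩ := mvt_neg hab (fun x hx => (h x hx).fun_neg) (neg_lt_neg hf)
  exact ⟨x, hx, neg_neg_iff_pos.1 h0⟩

theorem cross {q u u' S : ℝ → ℝ} {L s t : ℝ} (hu : Sol q u u' 0 L) (u0 : u 0 = 0) (uL : u L = 0)
    (hp : ∀ x ∈ Ioo 0 L, 0 < u x) (he : ∀ x ∈ Icc 0 L, 0 ≤ u' x ^ 2 - q x * u x ^ 2)
    (hS : ∀ x ∈ Icc 0 L, HasDerivAt S (1 / L - u x ^ 2) x) (S0 : S 0 = 0) (SL : S L = 0)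
    (hs : 0 < s) (hst : s < t) (ht : t < L) (h1 : S s ≤ 0) (h2 : 0 ≤ S t) : False := by
  have hL : 0 < L := hs.trans (hst.trans ht)
  have hL' : 0 < 1 / L := one_div_pos.2 hL
  have hS' : ∀ a b, 0 ≤ a → b ≤ L → ∀ x ∈ Icc a b, HasDerivAt S (1 / L - u x ^ 2) x :=
    fun a b g1 g2 x hx => hS x ⟨g1.trans hx.1, hx.2.trans g2⟩
  obtain ⟨x1, m1, k1⟩ : ∃ x ∈ Ioo 0 s, 1 / L - u x ^ 2 < 0 := by
    by_contra hn
    push Not at hn
    have := der_ge (hS 0 ⟨le_rfl, hL.le⟩).fun_neg hs fun x hx => by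
      linarith [le_of_der_nonneg hx.2.le (hS' x s hx.1.le (hst.trans ht).le)
        fun z hz => hn z ⟨hx.1.trans hz.1, hz.2⟩]
    rw [u0] at this
    linarith
  obtain ⟨x3, m3, k3⟩ : ∃ x ∈ Ioo t L, 1 / L - u x ^ 2 < 0 := by
    by_contra hn
    push Not at hn
    have := der_le (hS L ⟨hL.le, le_rfl⟩) ht fun x hx => by
      linarith [le_of_der_nonneg hx.1.le (hS' t x (hs.trans hst).le hx.2.le)
        fun z hz => hn z ⟨hz.1, hz.2.trans hx.2⟩]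
    rw [uL] at this
    linarith
  obtain ⟨x2, m2, k2⟩ : ∃ x ∈ Ioo s t, 0 ≤ 1 / L - u x ^ 2 := by
    by_contra hn
    push Not at hn
    linarith [lt_of_der_pos hst (fun x hx => (hS' s t hs.le ht.le x hx).fun_neg)
      fun x hx => neg_pos.2 (hn x hx)]
  have a1 := m1.2.trans m2.1
  have a2 := m2.2.trans m3.1
  have p1 := hp x1 ⟨m1.1, a1.trans (a2.trans m3.2)⟩
  have p3 := hp x3 ⟨m1.1.trans (a1.trans a2), m3.2⟩
  obtain ⟨z1, n1, l1⟩ := mvt_neg a1.le (fun x hx => (hu.mono m1.1.le (a2.trans m3.2).le x hx).1)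
    (lt_of_pow_lt_pow_left₀ 2 p1.le (by linarith))
  obtain ⟨z2, n2, l2⟩ := mvt_pos a2.le (fun x hx => (hu.mono (m1.1.trans a1).le m3.2.le x hx).1)
    (lt_of_pow_lt_pow_left₀ 2 p3.le (by linarith))
  have b1 := m1.1.trans n1.1
  have b2 := n2.2.trans m3.2
  have b3 := n1.2.trans n2.1
  have := wmono (κ := 0) b3.le (hu.mono b1.le b2.le)
    (fun x hx => hp x ⟨b1.trans_le hx.1, hx.2.trans_lt b2⟩)
    fun x hx => by simpa using he x ⟨b1.le.trans hx.1, hx.2.trans b2.le⟩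
  have c1 := div_pos (neg_pos.2 l1) (hp z1 ⟨b1, b3.trans b2⟩)
  have c2 := div_neg_of_neg_of_pos (neg_neg_of_pos l2) (hp z2 ⟨b1.trans b3, b2⟩)
  linarith

theorem reflmono {V u u' F F1 : ℝ → ℝ} {L a : ℝ} (hL : 0 < L) (hV : ContinuousOn V (Icc 0 L))
    (hm : MonotoneOn V (Icc 0 L)) (hlt : V 0 < V L) (hu : Sol (fun x => V x - a) u u' 0 L)
    (u0 : u 0 = 0) (uL : u L = 0) (hp : ∀ x ∈ Ioo 0 L, 0 < u x)
    (hF : ∀ x ∈ Icc 0 L, HasDerivAt F (u x ^ 2) x) (hF1 : ∀ x ∈ Icc 0 L, HasDerivAt F1 (F x) x) :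
    (F 0 + F L) * (L / 2) < F1 L - F1 0 := by
  have i1 : ∀ x ∈ Icc 0 (L / 2), x ∈ Icc 0 L := fun x hx => ⟨hx.1, by linarith [hx.2]⟩
  have i2 : ∀ x ∈ Icc 0 (L / 2), L - x ∈ Icc 0 L := fun x hx =>
    ⟨by linarith [hx.2], by linarith [hx.1]⟩
  have p1 : ∀ x ∈ Ioc 0 (L / 2), 0 < u x := fun x hx => hp x ⟨hx.1, by linarith [hx.2]⟩
  have p2 : ∀ x ∈ Ioc 0 (L / 2), 0 < u (L - x) := fun x hx =>
    hp _ ⟨by linarith [hx.2], by linarith [hx.1]⟩
  have gen : ∀ {f f' : ℝ → ℝ} {s t : ℝ}, (∀ x ∈ Icc s t, HasDerivAt f (f' x) x) →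
      (∀ x ∈ Ioo s t, 0 ≤ f' x) → (∃ x ∈ Ioo s t, 0 < f' x) → f s < f t := fun h1 h2 h3 =>
    rlt (fun x hx => (h1 x hx).continuousAt.continuousWithinAt)
      (fun x hx => (h1 x (Ioo_subset_Icc_self hx)).hasDerivWithinAt) h2 h3
  have hW : ∀ t ∈ Ioc 0 (L / 2), 0 < -(u' t * u (L - t) + u t * u' (L - t)) := fun t ht => by
    have := gen (f := fun x => -(u' x * u (L - x) + u x * u' (L - x))) (s := 0) (t := t)
      (f' := fun x => (V (L - x) - V x) * (u x * u (L - x))) (fun x hx => by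
        have hx' : x ∈ Icc 0 (L / 2) := ⟨hx.1, hx.2.trans ht.2⟩
        have g1 := hu x (i1 x hx')
        have g2 := hu _ (i2 x hx')
        exact ((g1.2.fun_mul (hd_refl g2.1)).fun_add (g1.1.fun_mul (hd_refl g2.2))).fun_neg.congr_deriv
          (by ring))
      (fun x hx => by
        have hx' : x ∈ Ioc 0 (L / 2) := ⟨hx.1, hx.2.le.trans ht.2⟩
        exact mul_nonneg (sub_nonneg.2 (hm (i1 x ⟨hx.1.le, hx'.2⟩) (i2 x ⟨hx.1.le, hx'.2⟩)
          (by linarith [hx'.2]))) (mul_pos (p1 x hx') (p2 x hx')).le)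
      (by
        have c : ContinuousWithinAt (fun x => V (L - x) - V x) (Icc 0 (L / 2)) 0 :=
          ((hV.comp (by fun_prop) i2).sub (hV.mono i1)) 0 ⟨le_rfl, by linarith⟩
        have c1 := c.tendsto.eventually_const_lt (u := 0) (by simpa using hlt)
        have c2 : 𝓝[>] (0 : ℝ) ≤ 𝓝[Icc 0 (L / 2)] 0 :=
          nhdsWithin_le_of_mem (Icc_mem_nhdsGT (by linarith))
        obtain ⟨x, g1, g2⟩ := ((c1.filter_mono c2).and (Ioo_mem_nhdsGT ht.1)).exists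
        have hx' : x ∈ Ioc 0 (L / 2) := ⟨g2.1, g2.2.le.trans ht.2⟩
        exact ⟨x, g2, mul_pos g1 (mul_pos (p1 x hx') (p2 x hx'))⟩)
    simpa [u0, uL] using this
  have hf : ∀ s ∈ Ioo 0 (L / 2), u (L - s) < u s := fun s hs => by
    have := lt_of_der_pos (f := fun x => -(u x / u (L - x)))
      (f' := fun x => -(u' x * u (L - x) + u x * u' (L - x)) / u (L - x) ^ 2) hs.2 (fun x hx => by
        have hx' : x ∈ Ioc 0 (L / 2) := ⟨hs.1.trans_le hx.1, hx.2⟩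
        exact ((hu x (i1 x ⟨hx'.1.le, hx.2⟩)).1.fun_div (hd_refl (hu _ (i2 x ⟨hx'.1.le, hx.2⟩)).1)
          (p2 x hx').ne').fun_neg.congr_deriv (by ring))
      fun x hx => div_pos (hW x ⟨hs.1.trans hx.1, hx.2.le⟩)
        (pow_pos (p2 x ⟨hs.1.trans hx.1, hx.2.le⟩) 2)
    simp only [show L - L / 2 = L / 2 by ring, div_self (p1 _ ⟨half_pos hL, le_rfl⟩).ne',
      neg_lt_neg_iff] at this
    exact (one_lt_div (p2 s ⟨hs.1, hs.2.le⟩)).1 this
  have hQ : ∀ t ∈ Ioo 0 (L / 2), 0 < F t + F (L - t) - (F 0 + F L) := fun t ht => by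
    have := lt_of_der_pos (f := fun x => F x + F (L - x)) (f' := fun x => u x ^ 2 - u (L - x) ^ 2)
      ht.1 (fun x hx => (hF x (i1 x ⟨hx.1, hx.2.trans ht.2.le⟩)).fun_add
        (hd_refl (hF _ (i2 x ⟨hx.1, hx.2.trans ht.2.le⟩))))
      fun x hx => sub_pos.2 (pow_lt_pow_left₀ (hf x ⟨hx.1, hx.2.trans ht.2⟩)
        (p2 x ⟨hx.1, (hx.2.trans ht.2).le⟩).le two_ne_zero)
    simp only [sub_zero] at this
    linarith
  have := lt_of_der_pos (f := fun x => F1 x - F1 (L - x) - (F 0 + F L) * x)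
    (f' := fun x => F x + F (L - x) - (F 0 + F L)) (half_pos hL)
    (fun x hx => (((hF1 x (i1 x hx)).fun_sub (hd_refl (hF1 _ (i2 x hx)))).fun_sub
      ((hasDerivAt_id' x).const_mul (F 0 + F L))).congr_deriv (by ring)) hQ
  simp only [show L - L / 2 = L / 2 by ring, sub_zero] at this
  linarith

end Pool.Agent.Lib.MP_6547d0_mp.G
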