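import Pool.Agent.Lib.MP_6547d0_mp.G.Min

/-! The slope of a minimiser is locally constant off the minimum set of the double primitive. -/

set_option autoImplicit false

namespace Pool.Agent.Lib.MP_6547d0_mp.G

open Set Filter Topology Real MeasureTheory intervalIntegral

theorem rle {f f' : ℝ → ℝ} {a b : ℝ} (hab : a ≤ b) (hc : ContinuousOn f (Icc a b))
    (hd : ∀ x ∈ Ioo a b, HasDerivWithinAt f (f' x) (Ioi x) x) (hp : ∀ x ∈ Ioo a b, 0 ≤ f' x) :
    f a ≤ f b := by
  have := integral_le_sub_of_hasDeriv_right_of_le (φ := fun _ => 0) hab hc hd (by simp) hp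
  simpa using this

theorem rlt {f f' : ℝ → ℝ} {a b : ℝ} (hc : ContinuousOn f (Icc a b))
    (hd : ∀ x ∈ Ioo a b, HasDerivWithinAt f (f' x) (Ioi x) x) (hp : ∀ x ∈ Ioo a b, 0 ≤ f' x)
    (h : ∃ x ∈ Ioo a b, 0 < f' x) : f a < f b := by
  obtain ⟨x, hx, h0⟩ := h
  have h1 := ((hasDerivWithinAt_iff_tendsto_slope' self_notMem_Ioi).1 (hd x hx)).eventually_const_lt
    h0
  obtain ⟨z, hz, hz'⟩ := (h1.and (Ioo_mem_nhdsGT hx.2)).exists
  rw [slope_def_field, div_pos_iff_of_pos_right (sub_pos.2 hz'.1)] at hz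
  have h2 := rle hx.1.le (hc.mono (Icc_subset_Icc_right hx.2.le))
    (fun t ht => hd t ⟨ht.1, ht.2.trans hx.2⟩) fun t ht => hp t ⟨ht.1, ht.2.trans hx.2⟩
  have h3 := rle hz'.2.le (hc.mono (Icc_subset_Icc_left (hx.1.trans hz'.1).le))
    (fun t ht => hd t ⟨(hx.1.trans hz'.1).trans ht.1, ht.2⟩)
    fun t ht => hp t ⟨(hx.1.trans hz'.1).trans ht.1, ht.2⟩
  linarith

theorem rconst {f : ℝ → ℝ} {a b : ℝ} (hc : ContinuousOn f (Icc a b))
    (hd : ∀ x ∈ Ioo a b, HasDerivWithinAt f 0 (Ioi x) x) : ∀ x ∈ Icc a b, f x = f a := by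
  intro x hx
  have hc' := hc.mono (Icc_subset_Icc_right hx.2)
  have h1 := rle (f' := fun _ => 0) hx.1 hc' (fun t ht => hd t ⟨ht.1, ht.2.trans_le hx.2⟩)
    fun _ _ => le_rfl
  have h2 := rle (f' := fun _ => -0) hx.1 hc'.fun_neg
    (fun t ht => (hd t ⟨ht.1, ht.2.trans_le hx.2⟩).fun_neg) fun _ _ => by simp
  linarith

theorem part {Φ r : ℝ → ℝ} {a b C : ℝ} (hab : a ≤ b)
    (h : ∀ x y, a ≤ x → x ≤ y → y ≤ b → Φ x - C * (y - x) * (r y - r x) ≤ Φ y) : Φ a ≤ Φ b := by
  have key : ∀ N : ℕ, Φ a - C * ((b - a) / (N + 1)) * (r b - r a) ≤ Φ b := fun N => by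
    have hN : (0 : ℝ) < N + 1 := by positivity
    set δ := (b - a) / (N + 1) with hδ
    have δ0 : 0 ≤ δ := div_nonneg (sub_nonneg.2 hab) hN.le
    have e : a + (N + 1 : ℕ) * δ = b := by
      rw [hδ]; push_cast; field_simp; ring
    have : ∀ k : ℕ, k ≤ N + 1 → Φ a - C * δ * (r (a + k * δ) - r a) ≤ Φ (a + k * δ) := by
      intro k
      induction k with
      | zero => simp
      | succ k ih =>
        intro hk
        have h1 := ih (by omega)
        have h2 := h (a + k * δ) (a + (k + 1 : ℕ) * δ) (by nlinarith [Nat.cast_nonneg (α := ℝ) k])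
          (by push_cast; linarith) (by
            rw [← e]
            have : ((k + 1 : ℕ) : ℝ) ≤ (N + 1 : ℕ) := by exact_mod_cast hk
            nlinarith)
        rw [show a + (k + 1 : ℕ) * δ - (a + k * δ) = δ by push_cast; ring] at h2
        linarith
    simpa only [e] using this (N + 1) le_rfl
  have t : Tendsto (fun N : ℕ => Φ a - C * ((b - a) / (N + 1)) * (r b - r a)) atTop
      (𝓝 (Φ a - C * 0 * (r b - r a))) := by
    refine tendsto_const_nhds.sub ((Tendsto.const_mul C ?_).mul_const _)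
    exact tendsto_const_nhds.div_atTop (tendsto_natCast_atTop_atTop.atTop_add tendsto_const_nhds)
  simpa using le_of_tendsto' t key

theorem kkt {L M t : ℝ} {V r h D G : ℝ → ℝ} (hL : 0 < L) (hV : ContinuousOn V (Icc 0 L))
    (hr : Monotone r) (r0 : r 0 = -M) (rL : r L = M)
    (hd : ∀ x ∈ Ioo 0 L, HasDerivWithinAt V (r x) (Ioi x) x) (hh : ContinuousOn h (Icc 0 L))
    (hD : ∀ x ∈ Icc 0 L, HasDerivAt D (h x) x) (hG : ∀ x ∈ Icc 0 L, HasDerivAt G (D x) x)
    (D0 : D 0 = 0) (DL : D L = 0) (G0 : ∀ x ∈ Icc 0 L, 0 ≤ G x) (ht : t ∈ Icc 0 L) (Gt : G t = 0)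
    (hv : ∫ x in (0 : ℝ)..L, V x * h x ≤ ∫ x in (0 : ℝ)..L, M * |x - t| * h x) :
    ∀ a b, 0 ≤ a → a ≤ b → b ≤ L → (∀ x ∈ Icc a b, 0 < G x) → r a = r b := by
  have cD : ContinuousOn D (Icc 0 L) := fun x hx => (hD x hx).continuousAt.continuousWithinAt
  have cG : ContinuousOn G (Icc 0 L) := fun x hx => (hG x hx).continuousAt.continuousWithinAt
  have iD : ∀ x y, 0 ≤ x → x ≤ y → y ≤ L → IntervalIntegrable D volume x y :=
    fun x y h1 h2 h3 => (cD.mono (Icc_subset_Icc h1 h3)).intervalIntegrable_of_Icc h2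
  have ir : ∀ x y, 0 ≤ x → x ≤ y → y ≤ L → IntervalIntegrable (fun s => r s * D s) volume x y :=
    fun x y h1 h2 h3 => hr.intervalIntegrable.mul_continuousOn
      (by rw [uIcc_of_le h2]; exact cD.mono (Icc_subset_Icc h1 h3))
  have s1 := integral_eq_sub_of_hasDeriv_right_of_le (f := fun x => V x * D x)
    (f' := fun x => r x * D x + V x * h x) hL.le (hV.mul cD)
    (fun x hx => (hd x hx).mul (hD x (Ioo_subset_Icc_self hx)).hasDerivWithinAt)
    ((ir 0 L le_rfl hL.le le_rfl).add ((hV.fun_mul hh).intervalIntegrable_of_Icc hL.le))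
  rw [intervalIntegral.integral_add (ir 0 L le_rfl hL.le le_rfl)
    ((hV.fun_mul hh).intervalIntegrable_of_Icc hL.le), D0, DL] at s1
  have cU : ContinuousOn (fun x => M * |x - t| * h x) (Icc 0 L) := ContinuousOn.mul (by fun_prop) hh
  have i1 := (cU.mono (Icc_subset_Icc_right ht.2)).intervalIntegrable_of_Icc (μ := volume) ht.1
  have i2 := (cU.mono (Icc_subset_Icc_left ht.1)).intervalIntegrable_of_Icc (μ := volume) ht.2
  have s2 := integral_eq_sub_of_hasDerivAt (f := fun x => M * ((t - x) * D x + G x)) (fun x hx => by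
    rw [uIcc_of_le ht.1] at hx
    have hx' : x ∈ Icc 0 L := ⟨hx.1, hx.2.trans ht.2⟩
    refine (((((hasDerivAt_id x).const_sub t).mul (hD x hx')).add (hG x hx')).const_mul
      M).congr_deriv ?_
    rw [abs_of_nonpos (sub_nonpos.2 hx.2)]; simp only [id]; ring) i1
  have s3 := integral_eq_sub_of_hasDerivAt (f := fun x => M * ((x - t) * D x - G x)) (fun x hx => by
    rw [uIcc_of_le ht.2] at hx
    have hx' : x ∈ Icc 0 L := ⟨ht.1.trans hx.1, hx.2⟩
    refine (((((hasDerivAt_id x).sub_const t).mul (hD x hx')).sub (hG x hx')).const_mul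
      M).congr_deriv ?_
    rw [abs_of_nonneg (sub_nonneg.2 hx.1)]; simp only [id]; ring) i2
  rw [← integral_add_adjacent_intervals i1 i2, s2, s3, D0, DL, Gt] at hv
  obtain ⟨C, hC⟩ := isCompact_Icc.exists_bound_of_continuousOn cD
  have inc : ∀ η a b, 0 ≤ a → a ≤ b → b ≤ L → (∀ x ∈ Icc a b, η ≤ G x) →
      r a * (G a - η) - ∫ s in (0 : ℝ)..a, r s * D s ≤
        r b * (G b - η) - ∫ s in (0 : ℝ)..b, r s * D s := fun η a b h1 h2 h3 h4 => by
    refine part (Φ := fun x => r x * (G x - η) - ∫ s in (0 : ℝ)..x, r s * D s) (r := r) (C := C) h2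
      fun x y g1 g2 g3 => ?_
    have x0 := h1.trans g1
    have yL := g3.trans h3
    have e1 := integral_add_adjacent_intervals (ir 0 x le_rfl x0 (g2.trans yL)) (ir x y x0 g2 yL)
    have e2 := integral_eq_sub_of_hasDerivAt (f := G) (fun s hs => hG s (by
      rw [uIcc_of_le g2] at hs; exact ⟨x0.trans hs.1, hs.2.trans yL⟩)) (iD x y x0 g2 yL)
    have e3 := intervalIntegral.norm_integral_le_of_norm_le_const (a := x) (b := y)
      (C := (r y - r x) * C) (f := fun s => r s * D s - r x * D s) fun s hs => by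
        rw [uIoc_of_le g2] at hs
        rw [← sub_mul, norm_mul, Real.norm_of_nonneg (sub_nonneg.2 (hr hs.1.le))]
        exact mul_le_mul (by linarith [hr hs.2]) (hC s ⟨x0.trans hs.1.le, hs.2.trans yL⟩)
          (norm_nonneg _) (sub_nonneg.2 (hr g2))
    rw [intervalIntegral.integral_sub (ir x y x0 g2 yL) ((iD x y x0 g2 yL).const_mul _),
      intervalIntegral.integral_const_mul, e2, abs_of_nonneg (sub_nonneg.2 g2)] at e3
    have e4 := mul_nonneg (sub_nonneg.2 (hr g2)) (sub_nonneg.2 (h4 y ⟨g1.trans g2, g3⟩))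
    have e5 := (abs_le.1 e3).2
    nlinarith
  intro a b h1 h2 h3 h4
  obtain ⟨c, hc, hmin⟩ := isCompact_Icc.exists_isMinOn (nonempty_Icc.2 h2)
    (cG.mono (Icc_subset_Icc h1 h3))
  have k1 := inc 0 0 a le_rfl h1 (h2.trans h3) fun x hx => G0 x ⟨hx.1, hx.2.trans (h2.trans h3)⟩
  have k2 := inc (G c) a b h1 h2 h3 fun x hx => hmin hx
  have k3 := inc 0 b L (h1.trans h2) h3 le_rfl fun x hx => G0 x ⟨(h1.trans h2).trans hx.1, hx.2⟩
  rw [r0, integral_same] at k1
  rw [rL] at k3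
  refine le_antisymm (hr h2) (le_of_mul_le_mul_left ?_ (h4 c hc))
  nlinarith

end Pool.Agent.Lib.MP_6547d0_mp.G
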