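import Pool.Agent.Lib.MP_6547d0_mp.G.Core

/-! The lower bound for the distance of the `m`-th eigenvalue from the first. -/

set_option autoImplicit false

namespace Pool.Agent.Lib.MP_6547d0_mp.G

open Set Filter Topology Real MeasureTheory intervalIntegral

theorem lower_cls {L : ℝ} {m : ℕ} (hL : 0 < L) (hm : 1 < m) : ∃ M0 : ℝ, ∀ M, M0 ≤ M →
    ∀ (V : ℝ → ℝ) (a b : ℝ), Cls L M V → IsNth L V 1 a → IsNth L V m b →
      ((m : ℝ) ^ 2 - 1) * π ^ 2 / L ^ 2 ≤ b - a := by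
  have hΓ : 0 < ((m : ℝ) ^ 2 - 1) * π ^ 2 / L ^ 2 := by
    have : (1 : ℝ) < m := by exact_mod_cast hm
    have : 0 < (m : ℝ) ^ 2 - 1 := by nlinarith
    positivity
  obtain ⟨M0, hcap⟩ := capR hL hΓ
  refine ⟨max M0 1, fun M hM => ?_⟩
  have M1 : 0 < M := one_pos.trans_le ((le_max_right _ _).trans hM)
  obtain ⟨V, a, b, hV, ha, hb, hmin⟩ := exists_min hL M1 hm.le
  suffices h : ((m : ℝ) ^ 2 - 1) * π ^ 2 / L ^ 2 ≤ b - a from
    fun U a' b' h1 h2 h3 => h.trans (hmin U a' b' h1 h2 h3)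
  by_contra hγ
  push Not at hγ
  have cV := hV.cont
  obtain ⟨u, u', hu, u0, uL, uN, hp⟩ := nth_norm hL cV ha
  replace hp := hp rfl
  obtain ⟨y, y', hy, y0, yL, yN, -⟩ := nth_norm hL cV hb
  obtain ⟨r, hr, rb, r0, rL, hd⟩ := exists_r hL M1.le hV
  have hd1 := fun x hx => (hd x hx).1
  have ch := (hy.cont.fun_pow 2).fun_sub (hu.cont.fun_pow 2)
  obtain ⟨D, D0, DL, hD⟩ := prim hL.le ch
  rw [intervalIntegral.integral_sub ((hy.cont.fun_pow 2).intervalIntegrable_of_Icc hL.le)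
    ((hu.cont.fun_pow 2).intervalIntegrable_of_Icc hL.le), uN, yN, sub_self] at DL
  obtain ⟨H, -, -, hH⟩ := prim hL.le
    (show ContinuousOn D (Icc 0 L) from fun x hx => (hD x hx).continuousAt.continuousWithinAt)
  obtain ⟨t, ht, tmin⟩ := isCompact_Icc.exists_isMinOn (nonempty_Icc.2 hL.le)
    (show ContinuousOn H (Icc 0 L) from fun x hx => (hH x hx).continuousAt.continuousWithinAt)
  obtain ⟨G, hG, Gp, Gt⟩ : ∃ G : ℝ → ℝ, (∀ x ∈ Icc 0 L, HasDerivAt G (D x) x) ∧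
      (∀ x ∈ Icc 0 L, 0 ≤ G x) ∧ G t = 0 := ⟨fun x => H x - H t,
    fun x hx => (hH x hx).sub_const _, fun x hx => sub_nonneg.2 (tmin hx), sub_self _⟩
  have cG : ContinuousOn G (Icc 0 L) := fun x hx => (hG x hx).continuousAt.continuousWithinAt
  have hk := kkt hL cV hr r0 rL hd1 ch hD hG D0 DL Gp ht Gt
    (varineq (U := fun x => M * |x - t|) hL hm.le hV ha hb hmin hu u0 uL uN hy y0 yL yN
      ⟨(convexOn_dist t (convex_Icc 0 L)).smul M1.le, fun x _ z _ => by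
        nlinarith [abs_sub_le x z t]⟩)
  have he := energy cV hr hd1 hu u0 uL
  have hab := nth_lt hm ha hb
  have hy0 : ∃ x ∈ Icc 0 L, y x ≠ 0 := by
    by_contra hn
    push Not at hn
    rw [integral_congr (g := fun _ => 0) fun x hx => by
      rw [uIcc_of_le hL.le] at hx; simp [hn x hx]] at yN
    simp at yN
  have m0 : (0 : ℝ) ∈ Icc 0 L := ⟨le_rfl, hL.le⟩
  have mL : L ∈ Icc 0 L := ⟨hL.le, le_rfl⟩
  have sl : ∀ σ s s', 0 ≤ s → s ≤ s' → s' ≤ L → (∀ x ∈ Ioo s s', σ * r x = M) →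
      σ * V s + M * (s' - s) ≤ σ * V s' := fun σ s s' h1 h2 h3 h4 => by
    have := rle (f := fun x => σ * V x - M * x) h2
      ((continuousOn_const.mul (cV.mono (Icc_subset_Icc h1 h3))).sub (by fun_prop))
      (fun x hx => ((hd1 x ⟨h1.trans_lt hx.1, hx.2.trans_le h3⟩).const_mul σ).fun_sub
        ((hasDerivAt_id' x).const_mul M).hasDerivWithinAt) fun x hx => by simp [h4 x hx]
    linarith
  have GE : G L = 0 := (Gp L mL).eq_of_not_lt' fun h => by
    obtain ⟨p, p1, p2, p3, p4⟩ := last_le ht.2 (cG.mono (Icc_subset_Icc_left ht.1)) Gt.le h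
    have p0 := ht.1.trans p1
    refine hcap M ((le_max_left _ _).trans hM) V u u' y y' D a b p hV.1 cV hu u0 uL hp he hy y0 yL
      hy0 hab hγ hD DL p0 (dz hG D0 DL Gp p ⟨p0, p2.le⟩ p3)
      (mvt_pos p2.le (fun x hx => hG x ⟨p0.trans hx.1, hx.2⟩) (p3 ▸ h)) fun s s' h1 h2 h3 => ?_
    simpa using sl 1 s s' (p0.trans h1.le) h2 h3 fun x hx => by
      rw [one_mul, ← rL]
      exact hk x L (p0.trans (h1.trans hx.1).le) (hx.2.le.trans h3) le_rfl
        fun z hz => p4 z ⟨(h1.trans hx.1).trans_le hz.1, hz.2⟩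
  have G0 : G 0 = 0 := (Gp 0 m0).eq_of_not_lt' fun h => by
    obtain ⟨p, p1, p2, p3, p4⟩ := first_le ht.1 (cG.mono (Icc_subset_Icc_right ht.2)) Gt.le h
    have pL := p2.trans ht.2
    have i : ∀ x ∈ Icc 0 L, L - x ∈ Icc 0 L := fun x hx => ⟨by linarith [hx.2], by linarith [hx.1]⟩
    obtain ⟨ξ, x1, x2⟩ := mvt_neg p1.le (fun x hx => hG x ⟨hx.1, hx.2.trans pL⟩) (p3 ▸ h)
    obtain ⟨ζ, z1, z2⟩ := hy0
    refine hcap M ((le_max_left _ _).trans hM) (fun x => V (L - x)) _ _ _ _ (fun x => -D (L - x))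
      a b (L - p) (by simpa using cvx_refl (s := L) hV.1) (cV.comp (by fun_prop) i) hu.refl0
      (by simpa using uL) (by simpa using u0)
      (fun x hx => hp _ ⟨by linarith [hx.2], by linarith [hx.1]⟩)
      (fun x hx => by simpa using he _ (i x hx)) hy.refl0 (by simpa using yL) (by simpa using y0)
      ⟨L - ζ, i ζ z1, by simpa using z2⟩ hab hγ
      (fun x hx => (hd_refl (hD _ (i x hx))).fun_neg.congr_deriv (by ring)) (by simpa using D0)
      (by linarith) (by simpa using dz hG D0 DL Gp p ⟨p1.le, pL⟩ p3)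
      ⟨L - ξ, ⟨by linarith [x1.2], by linarith [x1.1]⟩, by simpa using x2⟩ fun s s' h1 h2 h3 => ?_
    have := sl (-1) (L - s') (L - s) (by linarith) (by linarith) (by linarith) fun x hx => by
      rw [← hk 0 x le_rfl (by linarith [hx.1]) (by linarith [hx.2])
        fun z hz => p4 z ⟨hz.1, by linarith [hz.2, hx.2]⟩, r0]
      ring
    linarith
  have hc := core hL cV hr rb hd hu u0 uL uN hp hy y0 yL hab hD hG D0 DL G0 GE Gp hk
  rw [nth_const hL hc ha, nth_const hL hc hb] at hγ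
  refine absurd hγ (not_lt.2 (le_of_eq ?_))
  push_cast
  ring

theorem lower {L a b : ℝ} {m : ℕ} {V : ℝ → ℝ} (hL : 0 < L) (hm : 1 < m)
    (cV : ContinuousOn V (Icc 0 L)) (hV : ConvexOn ℝ (Icc 0 L) V) (ha : IsNth L V 1 a)
    (hb : IsNth L V m b) : ((m : ℝ) ^ 2 - 1) * π ^ 2 / L ^ 2 ≤ b - a := by
  obtain ⟨M0, hM⟩ := lower_cls hL hm
  refine le_of_forall_pos_le_add fun ε hε => ?_
  obtain ⟨δ, hδ, hu⟩ := Metric.uniformContinuousOn_iff.1
    (isCompact_Icc.uniformContinuousOn_of_continuous cV) (ε / 2) (half_pos hε)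
  obtain ⟨η, η0, η1, η2⟩ : ∃ η, 0 < η ∧ η ≤ 1 ∧ η * L ≤ δ / 2 :=
    ⟨min 1 (δ / 2 / L), by positivity, min_le_left _ _, (le_div_iff₀ hL).1 (min_le_right _ _)⟩
  have ηL := mul_pos η0 hL
  have e : Metric.ball (L / 2) (L / 2) = Ioo 0 L := by rw [Real.ball_eq_Ioo]; congr 1 <;> ring
  obtain ⟨K, hK⟩ := ConvexOn.exists_lipschitzOnWith_of_isBounded (f := V) (x₀ := L / 2) (r := L / 2)
    (r' := L / 2 - η * L / 4) (e ▸ hV.subset Ioo_subset_Icc_self (convex_Ioo _ _)) (by linarith)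
    (e ▸ (isCompact_Icc.image_of_continuousOn cV).isBounded.subset
      (image_mono Ioo_subset_Icc_self))
  have i : ∀ x ∈ Icc 0 L, η * L / 2 + (1 - η) * x ∈ Icc (η * L / 2) (L - η * L / 2) := fun x hx =>
    ⟨by nlinarith [hx.1], by nlinarith [hx.2]⟩
  have i1 : ∀ x ∈ Icc 0 L, η * L / 2 + (1 - η) * x ∈ Icc 0 L := fun x hx =>
    ⟨by linarith [(i x hx).1], by linarith [(i x hx).2]⟩
  have i2 : ∀ x ∈ Icc 0 L, η * L / 2 + (1 - η) * x ∈ Metric.ball (L / 2) (L / 2 - η * L / 4) :=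
    fun x hx => by
      rw [Real.ball_eq_Ioo]
      exact ⟨by linarith [(i x hx).1], by linarith [(i x hx).2]⟩
  have hU : Cls L (max M0 K) fun x => V (η * L / 2 + (1 - η) * x) :=
    ⟨⟨convex_Icc _ _, fun x hx y hy α β h1 h2 h3 => by
      have := hV.2 (i1 x hx) (i1 y hy) h1 h2 h3
      rwa [show α • (η * L / 2 + (1 - η) * x) + β • (η * L / 2 + (1 - η) * y) =
        η * L / 2 + (1 - η) * (α • x + β • y) by
          simp only [smul_eq_mul]; linear_combination η * L / 2 * h3] at this⟩,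
    fun x hx y hy => by
      have h1 := hK.le_add_mul (i2 x hx) (i2 y hy)
      rw [Real.dist_eq, add_sub_add_left_eq_sub, ← mul_sub, abs_mul,
        abs_of_nonneg (sub_nonneg.2 η1)] at h1
      have h2 := mul_le_mul_of_nonneg_right (le_max_right M0 K) (abs_nonneg (x - y))
      simp only
      linarith [mul_nonneg (mul_nonneg K.coe_nonneg η0.le) (abs_nonneg (x - y))]⟩
  obtain ⟨a', ha'⟩ := nth_exists hL hU.cont le_rfl
  obtain ⟨b', hb'⟩ := nth_exists hL hU.cont hm.le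
  have hc : ∀ x ∈ Icc 0 L, |V x - V (η * L / 2 + (1 - η) * x)| ≤ ε / 2 := fun x hx =>
    (hu x hx _ (i1 x hx) (abs_lt.2 ⟨by nlinarith [hx.1], by nlinarith [hx.2]⟩)).le
  linarith [abs_le.1 (nth_abs hL cV hU.cont hc ha ha'), abs_le.1 (nth_abs hL cV hU.cont hc hb hb'),
    hM _ (le_max_left _ _) _ _ _ hU ha' hb']

end Pool.Agent.Lib.MP_6547d0_mp.G
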