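import Pool.Agent.Lib.MP_6547d0_mp.G.Pert

/-! The gap attains its minimum over convex potentials with bounded slope. -/

set_option autoImplicit false

namespace Pool.Agent.Lib.MP_6547d0_mp.G

open Set Filter Topology Real MeasureTheory intervalIntegral

/-- convex on `[0, L]` with slopes bounded by `M` -/
def Cls (L M : ℝ) (V : ℝ → ℝ) : Prop :=
  ConvexOn ℝ (Icc 0 L) V ∧ ∀ x ∈ Icc 0 L, ∀ y ∈ Icc 0 L, V x ≤ V y + M * |x - y|

theorem Cls.cont {L M : ℝ} {V : ℝ → ℝ} (h : Cls L M V) : ContinuousOn V (Icc 0 L) :=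
  (LipschitzOnWith.of_le_add_mul' M h.2).continuousOn

theorem Cls.abs {L M x y : ℝ} {V : ℝ → ℝ} (h : Cls L M V) (hx : x ∈ Icc 0 L) (hy : y ∈ Icc 0 L) :
    |V x - V y| ≤ M * |x - y| := by
  have h1 := h.2 x hx y hy
  have h2 := h.2 y hy x hx
  rw [abs_sub_comm] at h2
  exact abs_le.2 ⟨by linarith, by linarith⟩

theorem exists_min {L M : ℝ} {m : ℕ} (hL : 0 < L) (hM : 0 < M) (hm : 1 ≤ m) :
    ∃ (V : ℝ → ℝ) (a b : ℝ), Cls L M V ∧ IsNth L V 1 a ∧ IsNth L V m b ∧
      ∀ U a' b', Cls L M U → IsNth L U 1 a' → IsNth L U m b' → b - a ≤ b' - a' := by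
  set K : Set (ℝ → ℝ) := (univ.pi fun _ => Icc (-(M * L)) (M * L)) ∩ {V | Cls L M V}
  have hK : IsCompact K := by
    refine (isCompact_univ_pi fun _ => isCompact_Icc).inter_right ?_
    have : {V | Cls L M V} = {V | ConvexOn ℝ (Icc 0 L) V} ∩
        ⋂ x ∈ Icc 0 L, ⋂ y ∈ Icc 0 L, {V : ℝ → ℝ | V x ≤ V y + M * |x - y|} := by
      ext V
      simp only [mem_inter_iff, mem_iInter, mem_ofPred_eq, Cls]
    rw [this]
    exact isClosed_setOfPred_convexOn.inter (isClosed_biInter fun x _ =>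
      isClosed_biInter fun y _ => isClosed_le (by fun_prop) (by fun_prop))
  have hML : 0 ≤ M * L := by positivity
  have hne : K.Nonempty := ⟨fun _ => 0, fun _ _ => ⟨by linarith, hML⟩,
    convexOn_const _ (convex_Icc _ _), fun x _ y _ => by simp only [zero_add]; positivity⟩
  let lam : ℕ → (ℝ → ℝ) → ℝ := fun n V => Classical.epsilon (IsNth L V n)
  have hlam : ∀ n V, 1 ≤ n → Cls L M V → IsNth L V n (lam n V) := fun n V hn hV =>
    Classical.epsilon_spec (nth_exists hL hV.cont hn)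
  have hc : ∀ n, 1 ≤ n → ContinuousOn (lam n) K := fun n hn V hV => by
    refine Metric.tendsto_nhds.2 fun ε hε => ?_
    have := (isCompact_Icc (a := 0) (b := L)).eventually_forall_of_forall_eventually (x₀ := V)
      (P := fun U x => x ∈ Icc 0 L → U ∈ K → |U x - V x| ≤ ε / 2) fun y hy => by
        have t1 : Tendsto (fun z : (ℝ → ℝ) × ℝ => |z.1 y - V y| + 2 * (M * |z.2 - y|))
            (𝓝 (V, y)) (𝓝 0) := by
          have : Continuous fun z : (ℝ → ℝ) × ℝ => |z.1 y - V y| + 2 * (M * |z.2 - y|) := by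
            fun_prop
          simpa using this.tendsto (V, y)
        filter_upwards [t1.eventually_le_const (half_pos hε)] with z hz hx hU
        have h1 := Cls.abs hU.2 hx hy
        have h2 := Cls.abs hV.2 hx hy
        have h3 := abs_sub_le (z.1 z.2) (z.1 y) (V z.2)
        have h4 := abs_sub_le (z.1 y) (V y) (V z.2)
        rw [abs_sub_comm (V y)] at h4
        linarith
    filter_upwards [nhdsWithin_le_nhds this, self_mem_nhdsWithin] with U h1 hU
    have := nth_abs hL hU.2.cont hV.2.cont (fun x hx => h1 x hx hx hU) (hlam n U hn hU.2)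
      (hlam n V hn hV.2)
    rw [Real.dist_eq]
    linarith
  obtain ⟨V, hV, hmin⟩ := hK.exists_isMinOn hne ((hc m hm).sub (hc 1 le_rfl))
  refine ⟨V, _, _, hV.2, hlam 1 V le_rfl hV.2, hlam m V hm hV.2, fun U a' b' hU ha hb => ?_⟩
  have e : ∀ x ∈ Icc 0 L, U (max 0 (min x L)) + -U 0 = U x + -U 0 := fun x hx => by
    rw [cl_eq hx]
  have hU1 : Cls L M fun x => U (max 0 (min x L)) + -U 0 :=
    ⟨(hU.1.add_const (-U 0)).congr fun x hx => (e x hx).symm, fun x hx y hy => by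
      simp only [e x hx, e y hy]; linarith [hU.2 x hx y hy]⟩
  have hU2 : (fun x => U (max 0 (min x L)) + -U 0) ∈ K := ⟨fun x _ => by
    have hx := cl_mem hL.le x
    have h1 := hU.abs hx ⟨le_rfl, hL.le⟩
    rw [sub_zero, abs_of_nonneg hx.1] at h1
    exact abs_le.1 (h1.trans (mul_le_mul_of_nonneg_left hx.2 hM.le)), hU1⟩
  have u1 := nth_abs (c := 0) hL hU1.cont hU1.cont (by simp) (hlam 1 _ le_rfl hU1)
    ((isNth_shift e _ _).2 ha)
  have u2 := nth_abs (c := 0) hL hU1.cont hU1.cont (by simp) (hlam m _ hm hU1)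
    ((isNth_shift e _ _).2 hb)
  have := hmin hU2
  simp only [mem_ofPred_eq, Pi.sub_apply] at this
  linarith [abs_le.1 u1, abs_le.1 u2]

theorem varineq {L M a b : ℝ} {m : ℕ} {V U u u' y y' : ℝ → ℝ} (hL : 0 < L) (hm : 1 ≤ m)
    (hV : Cls L M V) (ha : IsNth L V 1 a) (hb : IsNth L V m b)
    (hmin : ∀ U a' b', Cls L M U → IsNth L U 1 a' → IsNth L U m b' → b - a ≤ b' - a')
    (hu : Sol (fun x => V x - a) u u' 0 L) (u0 : u 0 = 0) (uL : u L = 0)
    (uN : ∫ x in (0 : ℝ)..L, u x ^ 2 = 1) (hy : Sol (fun x => V x - b) y y' 0 L) (y0 : y 0 = 0)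
    (yL : y L = 0) (yN : ∫ x in (0 : ℝ)..L, y x ^ 2 = 1) (hU : Cls L M U) :
    ∫ x in (0 : ℝ)..L, V x * (y x ^ 2 - u x ^ 2) ≤ ∫ x in (0 : ℝ)..L, U x * (y x ^ 2 - u x ^ 2) := by
  have hW := hU.cont.fun_sub hV.cont
  obtain ⟨α, h1, h2⟩ := first hL hV.cont hW ha le_rfl hu u0 uL uN
  obtain ⟨β, h3, h4⟩ := first hL hV.cont hW hb hm hy y0 yL yN
  have h5 := ge_of_tendsto (b := 0) (h4.sub h2) (by
    filter_upwards [Ioo_mem_nhdsGT one_pos] with t ht
    have := hmin _ _ _ ⟨((hV.1.smul (sub_nonneg.2 ht.2.le)).add (hU.1.smul ht.1.le)).congr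
      fun x _ => by simp only [Pi.add_apply, smul_eq_mul]; ring, fun x hx z hz => by
        nlinarith [mul_le_mul_of_nonneg_left (hV.2 x hx z hz) (sub_nonneg.2 ht.2.le),
          mul_le_mul_of_nonneg_left (hU.2 x hx z hz) ht.1.le]⟩ (h1 t) (h3 t)
    rw [← sub_div]
    exact div_nonneg (by linarith) ht.1.le)
  have c := (hy.cont.fun_pow 2).fun_sub (hu.cont.fun_pow 2)
  rw [← intervalIntegral.integral_sub
    ((hW.fun_mul (hy.cont.fun_pow 2)).intervalIntegrable_of_Icc hL.le)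
    ((hW.fun_mul (hu.cont.fun_pow 2)).intervalIntegrable_of_Icc hL.le)] at h5
  rw [← sub_nonneg, ← intervalIntegral.integral_sub
    ((hU.cont.fun_mul c).intervalIntegrable_of_Icc hL.le)
    ((hV.cont.fun_mul c).intervalIntegrable_of_Icc hL.le)]
  refine h5.trans (le_of_eq (integral_congr fun x _ => ?_))
  ring

theorem exists_r {L M : ℝ} {V : ℝ → ℝ} (hL : 0 < L) (hM : 0 ≤ M) (hV : Cls L M V) :
    ∃ r : ℝ → ℝ, Monotone r ∧ (∀ x, |r x| ≤ M) ∧ r 0 = -M ∧ r L = M ∧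
      ∀ x ∈ Ioo 0 L, HasDerivWithinAt V (r x) (Ioi x) x ∧ ContinuousWithinAt r (Ioi x) x := by
  classical
  have hi : ∀ x ∈ Ioo 0 L, x ∈ interior (Icc 0 L) := fun x hx => by rwa [interior_Icc]
  let d : ℝ → ℝ := fun x => derivWithin V (Ioi x) x
  have sl : ∀ x ∈ Icc 0 L, ∀ y ∈ Icc 0 L, x < y → |slope V x y| ≤ M := fun x hx y hy h => by
    rw [slope_def_field, abs_div, div_le_iff₀ (abs_pos.2 (sub_pos.2 h).ne')]
    exact hV.abs hy hx
  have bd : ∀ x ∈ Ioo 0 L, -M ≤ d x ∧ d x ≤ M := fun x hx => by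
    have h1 := hV.1.rightDeriv_le_slope_of_mem_interior (hi x hx) ⟨hL.le, le_rfl⟩ hx.2
    have h2 := hV.1.slope_le_leftDeriv_of_mem_interior ⟨le_rfl, hL.le⟩ (hi x hx) hx.1
    have h3 := hV.1.leftDeriv_le_rightDeriv_of_mem_interior (hi x hx)
    have h4 := abs_le.1 (sl x (Ioo_subset_Icc_self hx) L ⟨hL.le, le_rfl⟩ hx.2)
    have h5 := abs_le.1 (sl 0 ⟨le_rfl, hL.le⟩ x (Ioo_subset_Icc_self hx) hx.1)
    constructor <;> simp only [d] <;> linarith
  let r : ℝ → ℝ := fun x => if x ≤ 0 then -M else if L ≤ x then M else d x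
  have re : ∀ x ∈ Ioo 0 L, r x = d x := fun x hx => by
    simp only [r, if_neg (not_le.2 hx.1), if_neg (not_le.2 hx.2)]
  have rb : ∀ x, -M ≤ r x ∧ r x ≤ M := fun x => by
    simp only [r]
    split_ifs with h1 h2
    · constructor <;> linarith
    · constructor <;> linarith
    · exact bd x ⟨not_le.1 h1, not_le.1 h2⟩
  have mono : Monotone r := fun x y hxy => by
    by_cases h1 : x ≤ 0
    · simpa only [r, if_pos h1] using (rb y).1
    by_cases h2 : L ≤ y
    · simpa only [r, if_neg (not_le.2 (hL.trans_le h2)), if_pos h2] using (rb x).2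
    push Not at h1 h2
    rw [re x ⟨h1, hxy.trans_lt h2⟩, re y ⟨h1.trans_le hxy, h2⟩]
    exact hV.1.monotoneOn_rightDeriv (hi x ⟨h1, hxy.trans_lt h2⟩) (hi y ⟨h1.trans_le hxy, h2⟩) hxy
  refine ⟨r, mono, fun x => abs_le.2 (rb x), by simp [r], by simp [r, hL], fun x hx => ?_⟩
  have hd : HasDerivWithinAt V (r x) (Ioi x) x := by
    rw [re x hx]; exact hV.1.hasDerivWithinAt_rightDeriv_of_mem_interior (hi x hx)
  refine ⟨hd, tendsto_order.2 ⟨fun c hc => ?_, fun c hc => ?_⟩⟩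
  · filter_upwards [self_mem_nhdsWithin] with y hy using hc.trans_le (mono (le_of_lt hy))
  have h1 := ((hasDerivWithinAt_iff_tendsto_slope' self_notMem_Ioi).1 hd).eventually_lt_const hc
  obtain ⟨z, hz, hz'⟩ := (h1.and (Ioo_mem_nhdsGT hx.2)).exists
  have h2 : ContinuousAt (fun y => (V z - V y) / (z - y)) x :=
    (continuousAt_const.sub (hV.cont.continuousAt (Icc_mem_nhds hx.1 hx.2))).div (by fun_prop)
      (sub_pos.2 hz'.1).ne'
  rw [slope_def_field] at hz
  filter_upwards [nhdsWithin_le_nhds (h2.eventually_lt_const hz), Ioo_mem_nhdsGT hz'.1]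
    with y h3 hy
  have hy' : y ∈ Ioo 0 L := ⟨hx.1.trans hy.1, hy.2.trans hz'.2⟩
  have := hV.1.rightDeriv_le_slope_of_mem_interior (hi y hy') ⟨(hx.1.trans hz'.1).le, hz'.2.le⟩ hy.2
  rw [slope_def_field] at this
  rw [re y hy']
  exact this.trans_lt h3

end Pool.Agent.Lib.MP_6547d0_mp.G
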