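import Pool.Agent.Lib.MP_6547d0_mp.G.Ode

/-! The `n`-th Dirichlet eigenvalue of a continuous potential of any sign. -/

set_option autoImplicit false

namespace Pool.Agent.Lib.MP_6547d0_mp.G

open Set Filter Topology Real MeasureTheory intervalIntegral

theorem isEig_shift {L c : ℝ} {V W : ℝ → ℝ} (h : ∀ x ∈ Icc 0 L, W x = V x + c) (μ : ℝ) :
    IsEig L W (μ + c) ↔ IsEig L V μ := by
  unfold IsEig
  refine exists_congr fun y => ?_
  have : (∀ x ∈ Ioo 0 L, -deriv (deriv y) x + W x * y x = (μ + c) * y x) ↔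
      ∀ x ∈ Ioo 0 L, -deriv (deriv y) x + V x * y x = μ * y x :=
    forall₂_congr fun x hx => by
      rw [h x (Ioo_subset_Icc_self hx)]
      constructor <;> intro h <;> linarith
  rw [this]

theorem isNth_shift {L c : ℝ} {V W : ℝ → ℝ} (h : ∀ x ∈ Icc 0 L, W x = V x + c) (n : ℕ) (a : ℝ) :
    IsNth L W n (a + c) ↔ IsNth L V n a := by
  unfold IsNth
  have : {μ | IsEig L W μ ∧ μ < a + c} = (fun μ => μ + c) '' {μ | IsEig L V μ ∧ μ < a} := by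
    ext μ
    simp only [mem_ofPred_eq, mem_image]
    constructor
    · rintro ⟨h1, h2⟩
      exact ⟨μ - c, ⟨(isEig_shift h _).1 (by simpa using h1), by linarith⟩, by ring⟩
    · rintro ⟨ν, ⟨h1, h2⟩, rfl⟩
      exact ⟨(isEig_shift h _).2 h1, by linarith⟩
  rw [isEig_shift h, this, (add_left_injective c).injOn.encard_image]

theorem bd_spec {V : ℝ → ℝ} {L : ℝ} (hL : 0 < L) (hV : ContinuousOn V (Icc 0 L)) :
    ∃ K : ℝ, ∀ c, K ≤ c → ∃ W : ℝ → ℝ, ∃ M, Bd W M ∧ ∀ x ∈ Icc 0 L, W x = V x + c := by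
  obtain ⟨K, -, hB⟩ := bd_of hL.le hV
  exact ⟨K, fun c hc => ⟨_, _, hB c hc, fun x hx => by simp only [cl_eq hx]⟩⟩

theorem nth_exists {V : ℝ → ℝ} {L : ℝ} (hL : 0 < L) (hV : ContinuousOn V (Icc 0 L)) {n : ℕ}
    (hn : 1 ≤ n) : ∃ a, IsNth L V n a := by
  obtain ⟨K, hK⟩ := bd_spec hL hV
  obtain ⟨W, M, hW, e⟩ := hK K le_rfl
  obtain ⟨f, φ, -, -, h⟩ := spec hW hL
  refine ⟨f (n - 1) ^ 2 - K, (isNth_shift e _ _).1 ((h _ _).2 ⟨n - 1, by omega, by ring⟩)⟩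

theorem ph_cmp {V W φ ψ : ℝ → ℝ} {M z L : ℝ} (hV : Bd V M) (hz : 0 < z) (hL : 0 ≤ L)
    (hle : ∀ x ∈ Icc 0 L, V x ≤ W x) (h : Ph V z φ 0 L) (H : Ph W z ψ 0 L) (h0 : φ 0 = 0)
    (H0 : ψ 0 = 0) : ψ L ≤ φ L := by
  have := fence' (K := M / z) (f := fun t => ψ t - φ t) (fun t ht => (H t ht).sub (h t ht))
    (by simp [h0, H0]) (fun t ht hp => by
      have h1 := hV.lip hz t (φ t) (ψ t)
      rw [abs_sub_comm, abs_of_pos hp] at h1
      have h2 : V t / z ≤ W t / z :=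
        div_le_div_of_nonneg_right (hle t (Ico_subset_Icc_self ht)) hz.le
      have h3 := mul_le_mul_of_nonneg_right h2 (sq_nonneg (sin (ψ t)))
      nlinarith) L ⟨hL, le_rfl⟩
  linarith

theorem nth_le {V W : ℝ → ℝ} {L c a b : ℝ} {n : ℕ} (hL : 0 < L) (hV : ContinuousOn V (Icc 0 L))
    (hW : ContinuousOn W (Icc 0 L)) (hle : ∀ x ∈ Icc 0 L, V x ≤ W x + c) (ha : IsNth L V n a)
    (hb : IsNth L W n b) : a ≤ b + c := by
  obtain ⟨K, hK⟩ := bd_spec hL hV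
  obtain ⟨K', hK'⟩ := bd_spec hL hW
  obtain ⟨V1, M, hV1, e⟩ := hK (max K (K' - c)) (le_max_left _ _)
  obtain ⟨W1, M', hW1, e'⟩ := hK' (max K (K' - c) + c) (by linarith [le_max_right K (K' - c)])
  obtain ⟨f, φ, h1, h2, h3⟩ := spec hV1 hL
  obtain ⟨g, ψ, g1, g2, g3⟩ := spec hW1 hL
  obtain ⟨i, rfl, hi⟩ := (h3 _ _).1 ((isNth_shift e _ _).2 ha)
  obtain ⟨j, hj, hj'⟩ := (g3 _ _).1 ((isNth_shift e' _ _).2 hb)
  obtain rfl : i = j := by omega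
  have hz := (g2 i).1
  have h4 := ph_cmp hV1 hz hL.le (fun x hx => by rw [e x hx, e' x hx]; linarith [hle x hx])
    (h1 _ hz).2 (g1 _ hz).2 (h1 _ hz).1 (g1 _ hz).1
  have h5 : f i ≤ g i := by
    by_contra hn
    have := ph_lt hV1 hz (not_le.1 hn) hL (h1 _ hz).2 (h1 _ (h2 i).1).2 (h1 _ hz).1
      (h1 _ (h2 i).1).1
    linarith [(h2 i).2, (g2 i).2]
  have := pow_le_pow_left₀ (h2 i).1.le h5 2
  linarith

theorem nth_abs {V W : ℝ → ℝ} {L c a b : ℝ} {n : ℕ} (hL : 0 < L) (hV : ContinuousOn V (Icc 0 L))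
    (hW : ContinuousOn W (Icc 0 L)) (hle : ∀ x ∈ Icc 0 L, |V x - W x| ≤ c) (ha : IsNth L V n a)
    (hb : IsNth L W n b) : |a - b| ≤ c := by
  have h1 := nth_le hL hV hW (fun x hx => by linarith [(abs_le.1 (hle x hx)).2]) ha hb (c := c)
  have h2 := nth_le hL hW hV (fun x hx => by linarith [(abs_le.1 (hle x hx)).1]) hb ha (c := c)
  exact abs_le.2 ⟨by linarith, by linarith⟩

theorem nth_sol {V : ℝ → ℝ} {L a : ℝ} {n : ℕ} (hL : 0 < L) (hV : ContinuousOn V (Icc 0 L))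
    (ha : IsNth L V n a) : ∃ u u' : ℝ → ℝ, Sol (fun x => V x - a) u u' 0 L ∧ u 0 = 0 ∧
      u' 0 = 1 ∧ u L = 0 ∧ (n = 1 → ∀ x ∈ Ioo 0 L, 0 < u x) := by
  obtain ⟨K, hK⟩ := bd_spec hL hV
  obtain ⟨W, M, hW, e⟩ := hK K le_rfl
  obtain ⟨f, φ, h1, h2, h3⟩ := spec hW hL
  obtain ⟨i, rfl, hi⟩ := (h3 _ _).1 ((isNth_shift e _ _).2 ha)
  have hz := (h2 i).1
  obtain ⟨h0, hφ⟩ := h1 _ hz
  obtain ⟨ρ, hρ, hs⟩ := sol_of_ph hW hz hL hφ
  have hc : 0 < f i * ρ 0 := mul_pos hz (hρ 0)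
  refine ⟨_, _, (hs.smul (f i * ρ 0)⁻¹).congr fun x hx => by rw [e x hx]; linarith, by simp [h0],
    by simp only [h0, cos_zero, mul_one]; exact inv_mul_cancel₀ hc.ne',
    by simp only [(h2 i).2, sin_nat_mul_pi, mul_zero], fun hn x hx => ?_⟩
  obtain rfl : i = 0 := by omega
  have hsin : ∀ t ∈ Icc 0 L, 0 ≤ sin (φ (f 0) t) := fun t ht => by
    have g1 := hφ.up hW hz 0 le_rfl ht.1 ht.2 (by simp [h0])
    have g2 := hφ.down hW hz 1 ht.1 ht.2 le_rfl (by simpa using (h2 0).2.le)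
    exact sin_nonneg_of_nonneg_of_le_pi (by simpa using g1) (by simpa using g2)
  have hx' := Ioo_subset_Icc_self hx
  refine mul_pos (inv_pos.2 hc) (mul_pos (hρ x) ((hsin x hx').lt_of_ne fun h => ?_))
  have hmin : IsLocalMin (fun t => ρ t * sin (φ (f 0) t)) x := by
    filter_upwards [Icc_mem_nhds hx.1 hx.2] with t ht
    rw [← h, mul_zero]
    exact mul_nonneg (hρ t).le (hsin t ht)
  have g3 := hmin.hasDerivAt_eq_zero (hs x hx').1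
  have g4 : cos (φ (f 0) x) = 0 := by simpa [hz.ne', (hρ x).ne'] using g3
  have := sin_sq_add_cos_sq (φ (f 0) x)
  rw [g4, ← h] at this
  norm_num at this

theorem nth_const {L c a : ℝ} {n : ℕ} {V : ℝ → ℝ} (hL : 0 < L) (hV : ∀ x ∈ Icc 0 L, V x = c)
    (ha : IsNth L V n a) : a = (n : ℝ) ^ 2 * π ^ 2 / L ^ 2 + c := by
  have hB : Bd (fun _ => (0 : ℝ)) 0 := ⟨continuous_const, fun _ => ⟨le_rfl, le_rfl⟩⟩
  obtain ⟨f, φ, h1, h2, h3⟩ := spec hB hL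
  have ha' : IsNth L (fun _ => (0 : ℝ)) n (a - c) :=
    (isNth_shift (c := c) (W := V) (fun x hx => by simp [hV x hx]) n (a - c)).1 (by simpa using ha)
  obtain ⟨i, rfl, hi⟩ := (h3 _ _).1 ha'
  have hz := (h2 i).1
  have g1 := (h1 _ hz).2.grow hB hz le_rfl hL.le le_rfl
  have g2 := (h1 _ hz).2.grow' hz le_rfl le_rfl hL.le le_rfl fun _ _ => le_rfl
  rw [(h1 _ hz).1, (h2 i).2] at g1 g2
  have e : f i = (i + 1 : ℕ) * π / L := by
    rw [eq_div_iff hL.ne']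
    simp only [zero_div, sub_zero, zero_add] at g1 g2
    linarith
  rw [e, div_pow, mul_pow] at hi
  linarith

theorem nth_lt {L a b : ℝ} {n m : ℕ} {V : ℝ → ℝ} (hnm : n < m) (ha : IsNth L V n a)
    (hb : IsNth L V m b) : a < b := by
  by_contra h
  have h1 : {μ | IsEig L V μ ∧ μ < b}.encard ≤ {μ | IsEig L V μ ∧ μ < a}.encard :=
    encard_le_encard fun μ hμ => ⟨hμ.1, hμ.2.trans_le (not_lt.1 h)⟩
  have h2 : (m : ℕ∞) ≤ n := by
    rw [← ha.2, ← hb.2]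
    gcongr
  exact absurd (by exact_mod_cast h2) (not_le.2 hnm)

theorem sq_int_pos {q u u' : ℝ → ℝ} {a b : ℝ} (hab : a < b) (hu : Sol q u u' a b)
    (h : ∃ x ∈ Icc a b, u x ≠ 0) : 0 < ∫ x in a..b, u x ^ 2 := by
  have := integral_lt_integral_of_continuousOn_of_le_of_exists_lt (f := fun _ => (0 : ℝ))
    (g := fun x => u x ^ 2) hab continuousOn_const (hu.cont.pow 2) (fun x _ => sq_nonneg _)
    (by obtain ⟨x, hx, h0⟩ := h; exact ⟨x, hx, by positivity⟩)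
  simpa using this

theorem nth_norm {V : ℝ → ℝ} {L a : ℝ} {n : ℕ} (hL : 0 < L) (hV : ContinuousOn V (Icc 0 L))
    (ha : IsNth L V n a) : ∃ u u' : ℝ → ℝ, Sol (fun x => V x - a) u u' 0 L ∧ u 0 = 0 ∧
      u L = 0 ∧ ∫ x in (0 : ℝ)..L, u x ^ 2 = 1 ∧ (n = 1 → ∀ x ∈ Ioo 0 L, 0 < u x) := by
  obtain ⟨u, u', h, h0, h1, h2, h3⟩ := nth_sol hL hV ha
  have hN := sq_int_pos hL h (ne_of_der hL h ⟨le_rfl, hL.le⟩ (by simp [h1]))
  have hs := Real.sqrt_pos.2 hN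
  refine ⟨_, _, h.smul (√(∫ x in (0 : ℝ)..L, u x ^ 2))⁻¹, by simp [h0], by simp [h2], ?_,
    fun hn x hx => mul_pos (inv_pos.2 hs) (h3 hn x hx)⟩
  simp only [mul_pow, intervalIntegral.integral_const_mul, inv_pow, Real.sq_sqrt hN.le]
  exact inv_mul_cancel₀ hN.ne'

end Pool.Agent.Lib.MP_6547d0_mp.G
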