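import Pool.Agent.Lib.MP_6547d0_mp.Spec

/-! Solutions of `u'' = q u` on a closed interval: growth, Green identity, Sturm comparison. -/

set_option autoImplicit false

namespace Pool.Agent.Lib.MP_6547d0_mp.G

open Set Filter Topology Real MeasureTheory intervalIntegral

/-- `u` with derivative `u'` solves `u'' = q u` on `[a, b]`. -/
def Sol (q u u' : ℝ → ℝ) (a b : ℝ) : Prop :=
  ∀ x ∈ Icc a b, HasDerivAt u (u' x) x ∧ HasDerivAt u' (q x * u x) x

theorem Sol.mono {q u u' : ℝ → ℝ} {a b a' b' : ℝ} (h : Sol q u u' a b) (h1 : a ≤ a')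
    (h2 : b' ≤ b) : Sol q u u' a' b' := fun x hx => h x ⟨h1.trans hx.1, hx.2.trans h2⟩

theorem Sol.cont {q u u' : ℝ → ℝ} {a b : ℝ} (h : Sol q u u' a b) : ContinuousOn u (Icc a b) :=
  fun x hx => (h x hx).1.continuousAt.continuousWithinAt

theorem Sol.cont' {q u u' : ℝ → ℝ} {a b : ℝ} (h : Sol q u u' a b) : ContinuousOn u' (Icc a b) :=
  fun x hx => (h x hx).2.continuousAt.continuousWithinAt

theorem Sol.smul {q u u' : ℝ → ℝ} {a b : ℝ} (h : Sol q u u' a b) (c : ℝ) :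
    Sol q (fun x => c * u x) (fun x => c * u' x) a b := fun x hx =>
  ⟨(h x hx).1.const_mul c, ((h x hx).2.const_mul c).congr_deriv (by ring)⟩

theorem Sol.congr {q p u u' : ℝ → ℝ} {a b : ℝ} (h : Sol q u u' a b)
    (e : ∀ x ∈ Icc a b, q x = p x) : Sol p u u' a b := fun x hx => by
  rw [← e x hx]; exact h x hx

theorem hd_refl {f : ℝ → ℝ} {f' s x : ℝ} (h : HasDerivAt f f' (s - x)) :
    HasDerivAt (fun x => f (s - x)) (-f') x := by
  have := h.comp x ((hasDerivAt_id x).const_sub s)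
  simpa [Function.comp_def] using this

theorem Sol.refl {q u u' : ℝ → ℝ} {a b : ℝ} (h : Sol q u u' a b) (s : ℝ) :
    Sol (fun x => q (s - x)) (fun x => u (s - x)) (fun x => -u' (s - x)) (s - b) (s - a) :=
  fun x hx => by
    have h1 := h (s - x) ⟨by linarith [hx.2], by linarith [hx.1]⟩
    exact ⟨hd_refl h1.1, (hd_refl h1.2).neg.congr_deriv (by ring)⟩

theorem Sol.refl0 {q u u' : ℝ → ℝ} {L : ℝ} (h : Sol q u u' 0 L) :
    Sol (fun x => q (L - x)) (fun x => u (L - x)) (fun x => -u' (L - x)) 0 L := by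
  simpa using h.refl L

theorem gron {d d' r q : ℝ → ℝ} {a b K ε : ℝ}
    (h : ∀ x ∈ Icc a b, HasDerivAt d (d' x) x ∧ HasDerivAt d' (q x * d x + r x) x)
    (hq : ∀ x ∈ Icc a b, |q x| ≤ K) (hr : ∀ x ∈ Icc a b, |r x| ≤ ε)
    (h0 : d a ^ 2 + d' a ^ 2 ≤ ε ^ 2) :
    ∀ x ∈ Icc a b, d x ^ 2 + d' x ^ 2 ≤ ε ^ 2 * exp ((K + 3) * (x - a)) := by
  intro x hx
  have := fence' (K := K + 2)
    (f := fun t => d t ^ 2 + d' t ^ 2 - ε ^ 2 * exp ((K + 3) * (t - a)))
    (f' := fun t => 2 * d t * d' t + 2 * d' t * (q t * d t + r t)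
      - ε ^ 2 * (exp ((K + 3) * (t - a)) * (K + 3)))
    (fun t ht => by
      have e3 : HasDerivAt (fun t => (K + 3) * (t - a)) (K + 3) t := by
        simpa using ((hasDerivAt_id t).sub_const a).const_mul (K + 3)
      refine ((((h t ht).1.pow 2).add ((h t ht).2.pow 2)).sub
        (e3.exp.const_mul (ε ^ 2))).congr_deriv ?_
      simp)
    (by simpa using h0) (fun t ht _ => by
      have ht' := Ico_subset_Icc_self ht
      have h1 := abs_le.1 (hq t ht')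
      have hK : 0 ≤ K := (abs_nonneg _).trans (hq t ht')
      have h2 : r t ^ 2 ≤ ε ^ 2 := by
        have := hr t ht'
        rw [← sq_abs (r t)]
        exact pow_le_pow_left₀ (abs_nonneg _) this 2
      have hE : 1 ≤ exp ((K + 3) * (t - a)) :=
        one_le_exp (mul_nonneg (by linarith) (by linarith [ht.1]))
      have h3 : ε ^ 2 ≤ ε ^ 2 * exp ((K + 3) * (t - a)) :=
        le_mul_of_one_le_right (sq_nonneg _) hE
      have h4 := mul_nonneg (show 0 ≤ K - q t by linarith) (sq_nonneg (d t + d' t))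
      have h5 := mul_nonneg (show 0 ≤ K + q t by linarith) (sq_nonneg (d t - d' t))
      nlinarith [sq_nonneg (d t - d' t), sq_nonneg (d' t - r t), sq_nonneg (d t)]) x hx
  linarith

theorem green {q u u' χ χ' χ'' : ℝ → ℝ} {a b : ℝ} (hab : a ≤ b) (hu : Sol q u u' a b)
    (hq : ContinuousOn q (Icc a b))
    (h1 : ∀ x ∈ Icc a b, HasDerivAt χ (χ' x) x ∧ HasDerivAt χ' (χ'' x) x)
    (h2 : ContinuousOn χ'' (Icc a b)) (ua : u a = 0) (ub : u b = 0) (ca : χ a = 0)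
    (cb : χ b = 0) : ∫ x in a..b, u x * (χ'' x - q x * χ x) = 0 := by
  have hc : ContinuousOn χ (Icc a b) := fun x hx => (h1 x hx).1.continuousAt.continuousWithinAt
  rw [integral_eq_sub_of_hasDerivAt (f := fun x => u x * χ' x - u' x * χ x)]
  · simp [ua, ub, ca, cb]
  · intro x hx
    rw [uIcc_of_le hab] at hx
    exact (((hu x hx).1.mul (h1 x hx).2).sub ((hu x hx).2.mul (h1 x hx).1)).congr_deriv (by ring)
  · exact (hu.cont.mul (h2.sub (hq.mul hc))).intervalIntegrable_of_Icc hab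

theorem last_le {f : ℝ → ℝ} {a x : ℝ} (hax : a ≤ x) (hc : ContinuousOn f (Icc a x))
    (ha : f a ≤ 0) (hx : 0 < f x) :
    ∃ p, a ≤ p ∧ p < x ∧ f p = 0 ∧ ∀ t ∈ Ioc p x, 0 < f t := by
  have hS : IsCompact (Icc a x ∩ f ⁻¹' Iic 0) :=
    isCompact_Icc.of_isClosed_subset (hc.preimage_isClosed_of_isClosed isClosed_Icc isClosed_Iic)
      inter_subset_left
  obtain ⟨p, ⟨hp, hp0⟩, hmax⟩ := hS.exists_isGreatest ⟨a, ⟨le_rfl, hax⟩, ha⟩
  have hp0' : f p ≤ 0 := hp0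
  have hpos : ∀ t ∈ Ioc p x, 0 < f t := fun t ht => by
    by_contra hn
    exact absurd (hmax ⟨⟨hp.1.trans ht.1.le, ht.2⟩, not_lt.1 hn⟩) (not_le.2 ht.1)
  have hpx : p < x := lt_of_le_of_ne hp.2 (by rintro rfl; linarith)
  refine ⟨p, hp.1, hpx, ?_, hpos⟩
  obtain ⟨t, ht, ht0⟩ := intermediate_value_Icc hp.2 (hc.mono (Icc_subset_Icc_left hp.1))
    (show (0 : ℝ) ∈ Icc (f p) (f x) from ⟨hp0', hx.le⟩)
  rcases ht.1.eq_or_lt with e | e
  · rw [e]; exact ht0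
  · linarith [hpos t ⟨e, ht.2⟩]

theorem first_le {f : ℝ → ℝ} {x b : ℝ} (hxb : x ≤ b) (hc : ContinuousOn f (Icc x b))
    (hb : f b ≤ 0) (hx : 0 < f x) :
    ∃ p, x < p ∧ p ≤ b ∧ f p = 0 ∧ ∀ t ∈ Ico x p, 0 < f t := by
  obtain ⟨p, h1, h2, h3, h4⟩ := last_le (f := fun t => f (-t)) (a := -b) (x := -x) (by linarith)
    (hc.comp continuous_neg.continuousOn fun t ht => ⟨by linarith [ht.2], by linarith [ht.1]⟩)
    (by simpa using hb) (by simpa using hx)
  refine ⟨-p, by linarith, by linarith, h3, fun t ht => ?_⟩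
  simpa using h4 (-t) ⟨by linarith [ht.2], by linarith [ht.1]⟩

theorem der_ge {u : ℝ → ℝ} {d a b : ℝ} (h : HasDerivAt u d a) (hab : a < b)
    (hp : ∀ t ∈ Ioo a b, u a ≤ u t) : 0 ≤ d := by
  have h1 := (hasDerivAt_iff_tendsto_slope.1 h).mono_left
    (nhdsWithin_mono a (show Ioi a ⊆ {a}ᶜ from fun t ht => ne_of_gt ht))
  refine ge_of_tendsto h1 ?_
  filter_upwards [Ioo_mem_nhdsGT hab] with t ht
  rw [slope_def_field]
  exact div_nonneg (sub_nonneg.2 (hp t ht)) (sub_nonneg.2 ht.1.le)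

theorem der_le {u : ℝ → ℝ} {d a b : ℝ} (h : HasDerivAt u d b) (hab : a < b)
    (hp : ∀ t ∈ Ioo a b, u b ≤ u t) : d ≤ 0 := by
  have h1 := (hasDerivAt_iff_tendsto_slope.1 h).mono_left
    (nhdsWithin_mono b (show Iio b ⊆ {b}ᶜ from fun t ht => ne_of_lt ht))
  refine le_of_tendsto h1 ?_
  filter_upwards [Ioo_mem_nhdsLT hab] with t ht
  rw [slope_def_field]
  exact div_nonpos_of_nonneg_of_nonpos (sub_nonneg.2 (hp t ht)) (sub_nonpos.2 ht.2.le)

theorem lt_of_der_pos {f f' : ℝ → ℝ} {a b : ℝ} (hab : a < b)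
    (h : ∀ x ∈ Icc a b, HasDerivAt f (f' x) x) (hp : ∀ x ∈ Ioo a b, 0 < f' x) : f a < f b := by
  obtain ⟨c, hc, e⟩ := exists_hasDerivAt_eq_slope f f' hab
    (fun x hx => (h x hx).continuousAt.continuousWithinAt)
    (fun x hx => h x (Ioo_subset_Icc_self hx))
  have := hp c hc
  rw [e] at this
  exact sub_pos.1 ((div_pos_iff_of_pos_right (sub_pos.2 hab)).1 this)

theorem le_of_der_nonneg {f f' : ℝ → ℝ} {a b : ℝ} (hab : a ≤ b)
    (h : ∀ x ∈ Icc a b, HasDerivAt f (f' x) x) (hp : ∀ x ∈ Ioo a b, 0 ≤ f' x) : f a ≤ f b := by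
  rcases hab.eq_or_lt with rfl | hab
  · exact le_rfl
  obtain ⟨c, hc, e⟩ := exists_hasDerivAt_eq_slope f f' hab
    (fun x hx => (h x hx).continuousAt.continuousWithinAt)
    (fun x hx => h x (Ioo_subset_Icc_self hx))
  have := hp c hc
  rw [e] at this
  exact sub_nonneg.1 ((div_nonneg_iff_of_pos_right' (sub_pos.2 hab)).1 this)
where div_nonneg_iff_of_pos_right' {x y : ℝ} (hy : 0 < y) : 0 ≤ x / y ↔ 0 ≤ x :=
  ⟨fun h => by have := mul_nonneg h hy.le; rwa [div_mul_cancel₀ _ hy.ne'] at this,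
    fun h => div_nonneg h hy.le⟩

theorem sturm_pos {q u u' φ φ' φ'' : ℝ → ℝ} {a b x : ℝ} (hu : Sol q u u' a b) (ua : u a = 0)
    (ub : u b = 0) (hx : x ∈ Icc a b) (hx0 : 0 < u x)
    (h1 : ∀ x ∈ Icc a b, HasDerivAt φ (φ' x) x ∧ HasDerivAt φ' (φ'' x) x)
    (h2 : ∀ x ∈ Icc a b, 0 ≤ φ x) (h3 : ∀ x ∈ Ioo a b, φ'' x < q x * φ x) : False := by
  obtain ⟨p, p1, p2, p3, p4⟩ := last_le hx.1 (hu.mono le_rfl hx.2).cont ua.le hx0
  obtain ⟨r, r1, r2, r3, r4⟩ := first_le hx.2 (hu.mono hx.1 le_rfl).cont ub.le hx0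
  have hpos : ∀ t ∈ Ioo p r, 0 < u t := fun t ht => by
    rcases le_total t x with h | h
    · exact p4 t ⟨ht.1, h⟩
    · exact r4 t ⟨h, ht.2⟩
  have hpr := p2.trans r1
  have hp : p ∈ Icc a b := ⟨p1, hpr.le.trans r2⟩
  have hr : r ∈ Icc a b := ⟨p1.trans hpr.le, r2⟩
  have d1 := der_ge (hu p hp).1 hpr fun t ht => by rw [p3]; exact (hpos t ht).le
  have d2 := der_le (hu r hr).1 hpr fun t ht => by rw [r3]; exact (hpos t ht).le
  have := lt_of_der_pos (f := fun t => u' t * φ t - u t * φ' t)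
    (f' := fun t => u t * (q t * φ t - φ'' t)) hpr (fun t ht => by
      have ht' : t ∈ Icc a b := ⟨p1.trans ht.1, ht.2.trans r2⟩
      exact (((hu t ht').2.mul (h1 t ht').1).sub ((hu t ht').1.mul (h1 t ht').2)).congr_deriv
        (by ring))
    (fun t ht => mul_pos (hpos t ht) (sub_pos.2 (h3 t ⟨p1.trans_lt ht.1, ht.2.trans_le r2⟩)))
  simp only [p3, r3, zero_mul, sub_zero] at this
  nlinarith [mul_nonneg d1 (h2 p hp), mul_nonneg (neg_nonneg.2 d2) (h2 r hr)]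

/-- Sturm comparison with a strict supersolution. -/
theorem sturm {q u u' φ φ' φ'' : ℝ → ℝ} {a b : ℝ} (hu : Sol q u u' a b) (ua : u a = 0)
    (ub : u b = 0) (hx : ∃ x ∈ Icc a b, u x ≠ 0)
    (h1 : ∀ x ∈ Icc a b, HasDerivAt φ (φ' x) x ∧ HasDerivAt φ' (φ'' x) x)
    (h2 : ∀ x ∈ Icc a b, 0 ≤ φ x) (h3 : ∀ x ∈ Ioo a b, φ'' x < q x * φ x) : False := by
  obtain ⟨x, hx, h0⟩ := hx
  rcases lt_or_gt_of_ne h0 with h | h
  · exact sturm_pos (hu.smul (-1)) (by simp [ua]) (by simp [ub]) hx (by simpa using h) h1 h2 h3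
  · exact sturm_pos hu ua ub hx h h1 h2 h3

theorem zero_right {q u u' : ℝ → ℝ} {a b : ℝ} (hu : Sol q u u' a b)
    (hq : ContinuousOn q (Icc a b)) (h0 : u a = 0) (h1 : u' a = 0) : ∀ x ∈ Icc a b, u x = 0 := by
  obtain ⟨K, hK⟩ := isCompact_Icc.exists_bound_of_continuousOn hq
  intro x hx
  have := gron (d := u) (d' := u') (r := fun _ => 0) (q := q) (K := K) (ε := 0)
    (fun t ht => by simpa using hu t ht) hK (by simp) (by simp [h0, h1]) x hx
  nlinarith [sq_nonneg (u x), sq_nonneg (u' x)]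

/-- a solution that does not vanish identically does not vanish on any interval -/
theorem nontriv {q u u' : ℝ → ℝ} {a b s t : ℝ} (hu : Sol q u u' a b)
    (hq : ContinuousOn q (Icc a b)) (hx : ∃ x ∈ Icc a b, u x ≠ 0) (hs : a ≤ s) (hst : s < t)
    (ht : t ≤ b) : ∃ x ∈ Ioo s t, u x ≠ 0 := by
  by_contra hn
  push Not at hn
  obtain ⟨x, hx, h0⟩ := hx
  have hm : (s + t) / 2 ∈ Ioo s t := ⟨by linarith, by linarith⟩
  set c := (s + t) / 2
  have hc : c ∈ Icc a b := ⟨hs.trans hm.1.le, hm.2.le.trans ht⟩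
  have e1 : HasDerivAt u 0 c := by
    refine (hasDerivAt_const c (0 : ℝ)).congr_of_eventuallyEq ?_
    filter_upwards [isOpen_Ioo.mem_nhds hm] with y hy using hn y hy
  have e2 := (hu c hc).1.unique e1
  rcases le_total c x with h | h
  · exact h0 (zero_right (hu.mono hc.1 le_rfl) (hq.mono (Icc_subset_Icc_left hc.1)) (hn c hm) e2
      x ⟨h, hx.2⟩)
  · have := zero_right ((hu.mono le_rfl hc.2).refl 0)
      ((hq.mono (Icc_subset_Icc_right hc.2)).comp (by fun_prop) fun y hy =>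
        ⟨by linarith [hy.2], by linarith [hy.1]⟩) (by simpa using hn c hm) (by simpa using e2)
      (0 - x) ⟨by linarith, by linarith [hx.1]⟩
    exact h0 (by simpa using this)

theorem cl_mem {a b : ℝ} (hab : a ≤ b) (t : ℝ) : max a (min t b) ∈ Icc a b :=
  ⟨le_max_left _ _, max_le hab (min_le_right _ _)⟩

theorem cl_eq {a b t : ℝ} (ht : t ∈ Icc a b) : max a (min t b) = t := by
  rw [min_eq_left ht.2, max_eq_right ht.1]

theorem prim {g : ℝ → ℝ} {a b : ℝ} (hab : a ≤ b) (hg : ContinuousOn g (Icc a b)) :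
    ∃ G : ℝ → ℝ, G a = 0 ∧ G b = ∫ x in a..b, g x ∧ ∀ x ∈ Icc a b, HasDerivAt G (g x) x := by
  have c1 : Continuous fun t => g (max a (min t b)) := hg.comp_continuous (by fun_prop) (cl_mem hab)
  refine ⟨fun x => ∫ t in a..x, g (max a (min t b)), by simp, ?_, fun x hx => ?_⟩
  · refine integral_congr fun t ht => ?_
    rw [uIcc_of_le hab] at ht
    simp only [cl_eq ht]
  · have := (c1.integral_hasStrictDerivAt a x).hasDerivAt
    rwa [cl_eq hx] at this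

theorem sol_of_ph {V φ : ℝ → ℝ} {M z L : ℝ} (hV : Bd V M) (hz : 0 < z) (hL : 0 < L)
    (h : Ph V z φ 0 L) : ∃ ρ : ℝ → ℝ, (∀ x, 0 < ρ x) ∧
      Sol (fun x => V x - z ^ 2) (fun x => ρ x * sin (φ x)) (fun x => z * (ρ x * cos (φ x))) 0 L := by
  obtain ⟨ρ, hρ, hd⟩ := exists_rho hV hL h
  refine ⟨ρ, hρ, fun x hx => ⟨?_, ?_⟩⟩
  · refine HasDerivAt.congr_deriv ((hd x hx).mul (h x hx).sin) ?_
    ring
  · refine HasDerivAt.congr_deriv (((hd x hx).mul (h x hx).cos).const_mul z) ?_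
    have := sin_sq_add_cos_sq (φ x)
    field_simp
    linear_combination (V x * ρ x * sin (φ x)) * this

theorem bd_of {V : ℝ → ℝ} {a b : ℝ} (hab : a ≤ b) (hV : ContinuousOn V (Icc a b)) :
    ∃ K : ℝ, 0 ≤ K ∧ ∀ c, K ≤ c → Bd (fun t => V (max a (min t b)) + c) (K + c) := by
  obtain ⟨K, hK⟩ := isCompact_Icc.exists_bound_of_continuousOn hV
  refine ⟨K, (norm_nonneg _).trans (hK a ⟨le_rfl, hab⟩), fun c hc =>
    ⟨(hV.comp_continuous (by fun_prop) (cl_mem hab)).add continuous_const, fun t => ?_⟩⟩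
  have := abs_le.1 (hK _ (cl_mem hab t))
  constructor <;> linarith

theorem exists_sol0 {q : ℝ → ℝ} {l : ℝ} (hl : 0 < l) (hq : ContinuousOn q (Icc 0 l)) :
    ∃ y y' : ℝ → ℝ, Sol q y y' 0 l ∧ y 0 = 0 ∧ 0 < y' 0 := by
  obtain ⟨K, hK, hB⟩ := bd_of hl.le hq
  have hz : 0 < K + 1 := by linarith
  have hV := hB ((K + 1) ^ 2) (by nlinarith)
  obtain ⟨φ, h0, hφ⟩ := exists_ph hV hz hl.le
  obtain ⟨ρ, hρ, hs⟩ := sol_of_ph hV hz hl hφ
  refine ⟨_, _, hs.congr fun x hx => by simp [cl_eq hx], by simp [h0], ?_⟩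
  simpa [h0] using mul_pos hz (hρ 0)

theorem exists_sol_left {q : ℝ → ℝ} {a b : ℝ} (hab : a < b) (hq : ContinuousOn q (Icc a b)) :
    ∃ y y' : ℝ → ℝ, Sol q y y' a b ∧ y b = 0 ∧ y' b ≠ 0 := by
  obtain ⟨y, y', h, h0, h1⟩ := exists_sol0 (q := fun x => q (b - x)) (sub_pos.2 hab)
    (hq.comp (by fun_prop) fun x hx => ⟨by linarith [hx.2], by linarith [hx.1]⟩)
  have := h.refl b
  simp only [sub_sub_cancel, sub_zero] at this
  exact ⟨_, _, this, by simpa using h0, by simpa using h1.ne'⟩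

theorem exists_sol_right {q : ℝ → ℝ} {a b : ℝ} (hab : a < b) (hq : ContinuousOn q (Icc a b)) :
    ∃ y y' : ℝ → ℝ, Sol q y y' a b ∧ y a = 0 ∧ y' a ≠ 0 := by
  obtain ⟨y, y', h, h0, h1⟩ := exists_sol_left (q := fun x => q (0 - x)) (a := 0 - b) (b := 0 - a)
    (by linarith) (hq.comp (by fun_prop) fun x hx => ⟨by linarith [hx.2], by linarith [hx.1]⟩)
  have := h.refl 0
  simp only [sub_sub_cancel] at this
  exact ⟨_, _, this, h0, by simpa using h1⟩

/-- a solution with nonzero derivative at a point of a nondegenerate interval is nontrivial -/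
theorem ne_of_der {q u u' : ℝ → ℝ} {a b c : ℝ} (hab : a < b) (hu : Sol q u u' a b)
    (hc : c ∈ Icc a b) (h : u' c ≠ 0) : ∃ x ∈ Icc a b, u x ≠ 0 := by
  by_contra hn
  push Not at hn
  have h1 : HasDerivWithinAt u 0 (Icc a b) c :=
    (hasDerivWithinAt_const c _ (0 : ℝ)).congr hn (hn c hc)
  exact h ((uniqueDiffOn_Icc hab c hc).eq_deriv _ (hu c hc).1.hasDerivWithinAt h1)

end Pool.Agent.Lib.MP_6547d0_mp.G
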