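import Pool.Agent.Lib.MP_6547d0_mp.G.Nth

/-! First order perturbation of Dirichlet eigenvalues. -/

set_option autoImplicit false

namespace Pool.Agent.Lib.MP_6547d0_mp.G

open Set Filter Topology Real MeasureTheory intervalIntegral

theorem close {V W u u' : ℝ → ℝ} {L a : ℝ} {n : ℕ} (hL : 0 < L) (hV : ContinuousOn V (Icc 0 L))
    (hW : ContinuousOn W (Icc 0 L)) (ha : IsNth L V n a) (hn : 1 ≤ n)
    (hu : Sol (fun x => V x - a) u u' 0 L) (u0 : u 0 = 0) :
    ∃ (b : ℝ → ℝ) (y y' : ℝ → ℝ → ℝ), (∀ t, IsNth L (fun x => V x + t * W x) n (b t) ∧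
      Sol (fun x => V x + t * W x - b t) (y t) (y' t) 0 L ∧ y t 0 = 0 ∧ y t L = 0) ∧
      Tendsto b (𝓝 0) (𝓝 a) ∧
      ∀ g : ℝ → ℝ, ContinuousOn g (Icc 0 L) →
        Tendsto (fun t => ∫ x in (0 : ℝ)..L, g x * y t x) (𝓝 0)
          (𝓝 (∫ x in (0 : ℝ)..L, g x * u x)) := by
  have hc : ∀ t : ℝ, ContinuousOn (fun x => V x + t * W x) (Icc 0 L) := fun t =>
    hV.add (continuousOn_const.mul hW)
  choose b hb using fun t => nth_exists hL (hc t) hn
  choose y y' hy y0 y1 yL _ using fun t => nth_sol hL (hc t) (hb t)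
  obtain ⟨K, hK⟩ := isCompact_Icc.exists_bound_of_continuousOn (hV.sub (continuousOn_const (c := a)))
  obtain ⟨K1, hK1⟩ := isCompact_Icc.exists_bound_of_continuousOn hW
  obtain ⟨K2, hK2⟩ := isCompact_Icc.exists_bound_of_continuousOn hu.cont
  simp only [Real.norm_eq_abs, Pi.sub_apply] at hK hK1 hK2
  have h0 : (0 : ℝ) ∈ Icc 0 L := ⟨le_rfl, hL.le⟩
  have p1 : 0 ≤ K1 := (abs_nonneg _).trans (hK1 0 h0)
  have p2 : 0 ≤ K2 := (abs_nonneg _).trans (hK2 0 h0)
  have p0 : 0 ≤ K := (abs_nonneg _).trans (hK 0 h0)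
  have tw : ∀ t, ∀ x ∈ Icc 0 L, |t * W x| ≤ |t| * K1 := fun t x hx => by
    rw [abs_mul]; exact mul_le_mul_of_nonneg_left (hK1 x hx) (abs_nonneg _)
  have hba : ∀ t, |b t - a| ≤ |t| * K1 := fun t =>
    nth_abs hL (hc t) hV (fun x hx => by simpa using tw t x hx) (hb t) ha
  have tq : ∀ t, ∀ x ∈ Icc 0 L, |t * W x - (b t - a)| ≤ |t| * K1 * 2 := fun t x hx => by
    linarith [abs_sub (t * W x) (b t - a), tw t x hx, hba t]
  set C := K1 * 2 * K2 * exp ((K + K1 * 2 + 3) * L)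
  have hd : ∀ t, |t| ≤ 1 → ∀ x ∈ Icc 0 L, |u' 0 * y t x - u x| ≤ |t| * C := fun t ht x hx => by
    have := gron (d := fun x => u' 0 * y t x - u x) (d' := fun x => u' 0 * y' t x - u' x)
      (q := fun x => V x + t * W x - b t) (r := fun x => (t * W x - (b t - a)) * u x)
      (K := K + K1 * 2) (ε := |t| * K1 * 2 * K2)
      (fun x hx => ⟨((hy t x hx).1.const_mul _).sub (hu x hx).1,
        (((hy t x hx).2.const_mul _).sub (hu x hx).2).congr_deriv (by ring)⟩)
      (fun x hx => by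
        have := abs_add_le (V x - a) (t * W x - (b t - a))
        rw [show V x - a + (t * W x - (b t - a)) = V x + t * W x - b t by ring] at this
        nlinarith [tq t x hx, hK x hx])
      (fun x hx => by
        rw [abs_mul]
        exact mul_le_mul (tq t x hx) (hK2 x hx) (abs_nonneg _) (by positivity))
      (by simp only [y0, y1, u0]; simp; positivity) x hx
    refine abs_le_of_sq_le_sq' ?_ (by positivity) |> abs_le.2
    have e1 : exp ((K + K1 * 2 + 3) * (x - 0)) ≤ exp ((K + K1 * 2 + 3) * L) ^ 2 := by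
      rw [sq, ← exp_add]
      exact exp_le_exp.2 (by nlinarith [hx.1, hx.2])
    have e2 := mul_le_mul_of_nonneg_left e1 (sq_nonneg (|t| * K1 * 2 * K2))
    have e3 : (|t| * C) ^ 2 = (|t| * K1 * 2 * K2) ^ 2 * exp ((K + K1 * 2 + 3) * L) ^ 2 := by
      simp only [C]; ring
    nlinarith [sq_nonneg (u' 0 * y' t x - u' x)]
  have lim : ∀ c : ℝ, Tendsto (fun t : ℝ => |t| * c) (𝓝 0) (𝓝 0) := fun c => by
    simpa using (continuous_abs.tendsto (0 : ℝ)).mul_const c
  refine ⟨b, fun t x => u' 0 * y t x, fun t x => u' 0 * y' t x,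
    fun t => ⟨hb t, (hy t).smul _, by simp [y0], by simp [yL]⟩, ?_, fun g hg => ?_⟩
  · exact tendsto_iff_norm_sub_tendsto_zero.2
      (squeeze_zero (fun _ => norm_nonneg _) (fun t => hba t) (lim _))
  obtain ⟨K3, hK3⟩ := isCompact_Icc.exists_bound_of_continuousOn hg
  refine tendsto_iff_norm_sub_tendsto_zero.2 (squeeze_zero' (Eventually.of_forall fun _ =>
    norm_nonneg _) ?_ (lim (C * K3 * |L - 0|)))
  filter_upwards [Icc_mem_nhds (show (-1 : ℝ) < 0 by norm_num) one_pos] with t ht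
  rw [← intervalIntegral.integral_sub
    ((hg.fun_mul ((hy t).smul _).cont).intervalIntegrable_of_Icc hL.le)
    ((hg.fun_mul hu.cont).intervalIntegrable_of_Icc hL.le)]
  refine (intervalIntegral.norm_integral_le_of_norm_le_const (C := |t| * C * K3)
    fun x hx => ?_).trans (le_of_eq (by ring))
  rw [uIoc_of_le hL.le] at hx
  have hx' := Ioc_subset_Icc_self hx
  rw [← mul_sub, norm_mul, mul_comm]
  exact mul_le_mul (hd t (abs_le.2 ht) x hx') (hK3 x hx') (norm_nonneg _) (by positivity)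

theorem first {V W u u' : ℝ → ℝ} {L a : ℝ} {n : ℕ} (hL : 0 < L) (hV : ContinuousOn V (Icc 0 L))
    (hW : ContinuousOn W (Icc 0 L)) (ha : IsNth L V n a) (hn : 1 ≤ n)
    (hu : Sol (fun x => V x - a) u u' 0 L) (u0 : u 0 = 0) (uL : u L = 0)
    (hN : ∫ x in (0 : ℝ)..L, u x ^ 2 = 1) :
    ∃ b : ℝ → ℝ, (∀ t, IsNth L (fun x => V x + t * W x) n (b t)) ∧
      Tendsto (fun t => (b t - a) / t) (𝓝[>] 0) (𝓝 (∫ x in (0 : ℝ)..L, W x * u x ^ 2)) := by
  obtain ⟨b, y, y', h1, -, h3⟩ := close hL hV hW ha hn hu u0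
  refine ⟨b, fun t => (h1 t).1, ?_⟩
  have l1 := h3 u hu.cont
  have l2 := h3 (fun x => W x * u x) (hW.mul hu.cont)
  simp only [← sq, hN] at l1
  simp only [mul_assoc, ← sq] at l2
  have l3 := (l2.div l1 one_ne_zero).mono_left (nhdsWithin_le_nhds (s := Ioi 0))
  rw [div_one] at l3
  refine l3.congr' ?_
  filter_upwards [self_mem_nhdsWithin, nhdsWithin_le_nhds (l1.eventually_ne one_ne_zero)]
    with t ht h0
  obtain ⟨-, hy, y0, yL⟩ := h1 t
  have g := green hL.le hu (hV.sub continuousOn_const) hy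
    (((hV.add (continuousOn_const.mul hW)).sub continuousOn_const).mul hy.cont) u0 uL y0 yL
  have e : (fun x => u x * ((V x + t * W x - b t) * y t x - (V x - a) * y t x)) =
      fun x => t * (W x * (u x * y t x)) - (b t - a) * (u x * y t x) := by
    ext x; ring
  have i1 := (hu.cont.fun_mul hy.cont).intervalIntegrable_of_Icc (μ := volume) hL.le
  have i2 := (hW.fun_mul (hu.cont.fun_mul hy.cont)).intervalIntegrable_of_Icc (μ := volume) hL.le
  rw [e, intervalIntegral.integral_sub (i2.const_mul _) (i1.const_mul _),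
    intervalIntegral.integral_const_mul, intervalIntegral.integral_const_mul] at g
  have ht' : t ≠ 0 := ne_of_gt ht
  simp only [Pi.div_apply]
  rw [div_eq_div_iff h0 ht']
  linarith

end Pool.Agent.Lib.MP_6547d0_mp.G
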